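import Mathlib

namespace Pool.Agent.TH281.HB

/-- linear interpolation of a sequence (used for real `s ≥ 0`) -/
noncomputable def interp {E : Type*} [AddCommGroup E] [Module ℝ E] (f : ℕ → E) (s : ℝ) : E :=
  (1 - (s - (⌊s⌋₊ : ℝ))) • f ⌊s⌋₊ + (s - (⌊s⌋₊ : ℝ)) • f (⌊s⌋₊ + 1)

/-- Data of one arm. `N s` is the distance to the (decreasing) family of directions, `ν s` the
quotient norm by the (increasing) family of poles, `P s` the path of poles. -/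
structure Arm (Y : Type*) [NormedAddCommGroup Y] [NormedSpace ℝ Y] where
  n : ℕ
  x : Y
  e : Y
  N : ℝ → Y → ℝ
  ν : ℝ → Y → ℝ
  P : ℝ → Y
  δ : Y → ℝ
  N_add : ∀ s, 0 ≤ s → ∀ w w', N s (w + w') ≤ N s w + N s w'
  N_smul : ∀ s, 0 ≤ s → ∀ (r : ℝ) w, N s (r • w) = |r| * N s w
  N_le : ∀ s, 0 ≤ s → ∀ w, N s w ≤ ‖w‖
  N_mono : ∀ s s', 0 ≤ s → s ≤ s' → ∀ w, N s w ≤ N s' w
  N_lip : ∀ s s', 0 ≤ s → 0 ≤ s' → ∀ w, |N s w - N s' w| ≤ |s - s'| * ‖w‖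
  ν_add : ∀ s, 0 ≤ s → ∀ w w', ν s (w + w') ≤ ν s w + ν s w'
  ν_smul : ∀ s, 0 ≤ s → ∀ (r : ℝ) w, ν s (r • w) = |r| * ν s w
  ν_le : ∀ s, 0 ≤ s → ∀ w, ν s w ≤ ‖w‖
  ν_anti : ∀ s s', 0 ≤ s → s ≤ s' → ∀ w, ν s' w ≤ ν s w
  ν_lip : ∀ s s', 0 ≤ s → 0 ≤ s' → ∀ w, |ν s w - ν s' w| ≤ |s - s'| * ‖w‖
  ν_zero : ∀ w, ν 0 w = ‖w‖
  comp : ∀ s, 0 ≤ s → ∀ w, ‖w‖ ≤ 3 * (ν s w + N s w)
  P_ν : ∀ s : ℝ, 4 ≤ s → s ≤ n → ν s (P s) = 0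
  P_N : ∀ s : ℝ, 4 ≤ s → s ≤ n → N (s - 4) (P s) = 0
  P_far : ∀ s : ℝ, 4 ≤ s → s ≤ n → 1 / 10 ≤ ν (s - 4) (P s)
  P_norm : ∀ s, 0 ≤ s → ‖P s‖ ≤ 1
  P_lip : ∀ s s', 0 ≤ s → 0 ≤ s' → ‖P s - P s'‖ ≤ 2 * |s - s'|
  x_norm : ‖x‖ = 10
  x_far : ∀ (r : ℝ) w, ‖w‖ ≤ 2 * ‖w + r • x‖ + 3 * N 0 w
  e_norm : ‖e‖ = 1
  e_N : N n e = 0
  hn : 5 ≤ n
  δ_le : ∀ (ρ r : ℝ) w, δ (r • x + ρ • w) ≤ |ρ| * N 0 w

/-- the properties of the retraction onto the unit sphere -/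
structure SphereRetr {Y : Type*} [NormedAddCommGroup Y] [NormedSpace ℝ Y] (R : Y → Y) (C : ℝ) :
    Prop where
  one_le : 1 ≤ C
  lip : ∀ y y', ‖R y - R y'‖ ≤ C * ‖y - y'‖
  norm : ∀ y, ‖R y‖ = 1
  eq : ∀ y, 1 ≤ ‖y‖ → R y = ‖y‖⁻¹ • y

/-- width of the arm -/
noncomputable def wid (a s : ℝ) : ℝ := 1 / 250 * (1 + Real.exp (-(a * s)))

namespace Arm

variable {Y : Type*} [NormedAddCommGroup Y] [NormedSpace ℝ Y] (A : Arm Y) (a : ℝ) (R : Y → Y)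

/-- clamped height -/
noncomputable def tc (v : Y × ℝ) : ℝ :=
  max 0 (min v.2 (min (1 - Real.exp (-(A.n : ℝ))) (1 - ‖v.1 - A.x‖ / 14)))

/-- level -/
noncomputable def lev (v : Y × ℝ) : ℝ := -Real.log (1 - A.tc v)

/-- direction vector -/
noncomputable def dir (v : Y × ℝ) : Y := (1 - A.tc v)⁻¹ • (v.1 - A.tc v • A.x)

/-- defect -/
noncomputable def defect (s : ℝ) (w : Y) : ℝ := |A.ν s w - 1| + max 0 (A.N s w - wid a s)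

/-- scaled defect, truncated at 5 -/
noncomputable def bet (s : ℝ) (w : Y) : ℝ :=
  min 5 (2000 / a * Real.exp (a * s) * A.defect a s w)

/-- the new level -/
noncomputable def lev' (s : ℝ) (w : Y) : ℝ := max 0 (s - min (A.bet a s w) 4)

/-- the mixing parameter -/
noncomputable def lam (s : ℝ) (w : Y) : ℝ := max 0 (A.bet a s w - 4)

/-- the target of completely bad points -/
noncomputable def tgt (s : ℝ) (y : Y) : Y :=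
  (min 1 (max 0 (s - 3))) • ((80 : ℝ) • A.P (max s 4)) + (1 - min 1 (max 0 (s - 3))) • y

/-- the mixed vector -/
noncomputable def mix (s : ℝ) (w y : Y) : Y :=
  (80 * (1 - A.lam a s w)) • w + A.lam a s w • A.tgt s y

/-- the new direction -/
noncomputable def dir' (s : ℝ) (w y : Y) : Y :=
  (A.ν (A.lev' a s w) (R (A.mix a s w y)))⁻¹ • R (A.mix a s w y)

/-- parametrization of the arm -/
noncomputable def pt (s : ℝ) (u : Y) : Y × ℝ :=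
  ((1 - Real.exp (-s)) • A.x + Real.exp (-s) • u, 1 - Real.exp (-s))

/-- the retraction (`ε = 1`) and its composition with the involution (`ε = -1`) -/
noncomputable def ret (ε : ℝ) (v : Y × ℝ) : Y × ℝ :=
  A.pt (A.lev' a (A.lev v) (A.dir v)) (ε • A.dir' a R (A.lev v) (A.dir v) v.1)

/-- the region of the arm -/
def reg : Set Y := {y | ‖y - A.x‖ < 1 ∨ (A.δ y < 4 / 250 ∧ 1 / 4 < ‖y‖)}

/-- membership in the core of the arm at level `s` -/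
def Core (s : ℝ) (u : Y) : Prop := 0 ≤ s ∧ s ≤ A.n ∧ A.ν s u = 1 ∧ A.N s u ≤ wid a s

end Arm

/-- A Mazur type basic sequence. -/
def Mazur {Y : Type*} [NormedAddCommGroup Y] [NormedSpace ℝ Y] (z : ℕ → Y) : Prop :=
  (∀ i, ‖z i‖ = 1) ∧ ∀ N : ℕ, ∀ g ∈ Submodule.span ℝ (z '' {i | i < N}),
    ∀ b ∈ Submodule.span ℝ (z '' {i | N ≤ i}), ‖g‖ ≤ 2 * ‖g + b‖

/-- A bounded, uniformly Hölder, fixed point free map with null minimal displacement. -/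
def HGadget (X : Type*) [NormedAddCommGroup X] (α : ℝ) : Prop :=
  ∃ (U : X → X) (K M : ℝ), 1 ≤ K ∧ 1 ≤ M ∧
    (∀ n : ℕ, 1 ≤ n → ∀ a b, ‖U^[n] a - U^[n] b‖ ≤ K * ‖a - b‖ ^ α) ∧ (∀ a, ‖U a‖ ≤ M) ∧
    (∀ a, U a ≠ a) ∧ ∀ η : ℝ, 0 < η → ∃ a, ‖a‖ ≤ M ∧ ‖a - U a‖ < η

end Pool.Agent.TH281.HB
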