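import Pool.Agent.TH281.HB.Single2

namespace Pool.Agent.TH281.HB

namespace Arm

variable {Y : Type*} [NormedAddCommGroup Y] [NormedSpace ℝ Y] (A : Arm Y) {a : ℝ}
  {R : Y → Y} {C : ℝ}

theorem tc_lip (v v' : Y × ℝ) : |A.tc v - A.tc v'| ≤ ‖v - v'‖ := by
  have h1 : ‖v.1 - v'.1‖ ≤ ‖v - v'‖ := norm_fst_le (v - v')
  have h2 : |v.2 - v'.2| ≤ ‖v - v'‖ := norm_snd_le (v - v')
  have h3 : |‖v.1 - A.x‖ - ‖v'.1 - A.x‖| ≤ ‖v.1 - v'.1‖ := by
    have := abs_norm_sub_norm_le (v.1 - A.x) (v'.1 - A.x)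
    rwa [sub_sub_sub_cancel_right] at this
  have h0 := norm_nonneg (v - v')
  unfold tc
  refine (abs_max_sub_max_le_max _ _ _ _).trans (max_le (by simp) ?_)
  refine (abs_min_sub_min_le_max _ _ _ _).trans (max_le h2 ?_)
  refine (abs_min_sub_min_le_max _ _ _ _).trans (max_le (by simp) ?_)
  rw [abs_le] at h3 ⊢
  constructor <;> linarith [h3.1, h3.2]

/-- two nearby points -/
structure Near (δ s₁ s₂ : ℝ) (w₁ w₂ y₁ y₂ : Y) : Prop where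
  δ_nonneg : 0 ≤ δ
  δ_le : δ ≤ 1 / 4
  s_nonneg : 0 ≤ s₁
  s_le : s₁ ≤ s₂
  s_sub : s₂ - s₁ ≤ 4 / 3 * δ
  s_n : s₂ ≤ A.n
  w_sub : ‖w₁ - w₂‖ ≤ 15 * δ
  y_sub : ‖y₁ - y₂‖ ≤ δ
  bdd : (s₁ = 0 ∧ s₂ = 0 ∧ w₁ = y₁ ∧ w₂ = y₂) ∨ (‖w₂‖ ≤ 24 ∧ ‖y₂‖ ≤ 24)

theorem near (v₁ v₂ : Y × ℝ) (h : A.tc v₁ ≤ A.tc v₂) (hd : ‖v₁ - v₂‖ < (1 - A.tc v₁) / 4) :
    A.Near (‖v₁ - v₂‖ / (1 - A.tc v₁)) (A.lev v₁) (A.lev v₂) (A.dir v₁) (A.dir v₂)
      v₁.1 v₂.1 := by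
  have hq1 : 0 < 1 - A.tc v₁ := by linarith [A.tc_lt v₁]
  have hq2 : 0 < 1 - A.tc v₂ := by linarith [A.tc_lt v₂]
  have hl := A.tc_lip v₁ v₂
  have h01 := A.tc_nonneg v₁
  have h02 := A.tc_nonneg v₂
  set d := ‖v₁ - v₂‖ with hdd
  have hd0 : 0 ≤ d := norm_nonneg _
  set q₁ := 1 - A.tc v₁ with hq₁
  set q₂ := 1 - A.tc v₂ with hq₂
  have hqq : |q₁ - q₂| ≤ d := by
    have : q₁ - q₂ = -(A.tc v₁ - A.tc v₂) := by rw [hq₁, hq₂]; ring
    rw [this, abs_neg]; exact hl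
  have hq12 : q₂ ≤ q₁ := by linarith
  rw [abs_of_nonneg (by linarith)] at hqq
  have hq34 : 3 / 4 * q₁ ≤ q₂ := by linarith
  have hy : ‖v₁.1 - v₂.1‖ ≤ d := norm_fst_le (v₁ - v₂)
  have hδ : d / q₁ * q₁ = d := div_mul_cancel₀ _ hq1.ne'
  have hδ0 : 0 ≤ d / q₁ := by positivity
  set δ := d / q₁ with hδδ
  have hq11 : q₁ ≤ 1 := by linarith
  have hδd : d ≤ δ := by nlinarith
  refine ⟨hδ0, ?_, A.lev_nonneg _, ?_, ?_, A.lev_le _, ?_, hy.trans hδd, ?_⟩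
  · by_contra hc
    push Not at hc
    nlinarith
  · unfold lev
    have : Real.log q₂ ≤ Real.log q₁ := Real.log_le_log hq2 hq12
    linarith
  · unfold lev
    have h1 : Real.log q₁ - Real.log q₂ = Real.log (q₁ / q₂) := by
      rw [Real.log_div hq1.ne' hq2.ne']
    have h2 : Real.log (q₁ / q₂) ≤ q₁ / q₂ - 1 := Real.log_le_sub_one_of_pos (by positivity)
    have h3 : q₁ / q₂ - 1 ≤ 4 / 3 * δ := by
      rw [sub_le_iff_le_add, div_le_iff₀ hq2]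
      nlinarith
    have : -Real.log q₂ - -Real.log q₁ = Real.log q₁ - Real.log q₂ := by ring
    rw [this, h1]; linarith
  · rcases h02.eq_or_lt with h0 | h0
    · have h1 : A.tc v₁ = 0 := le_antisymm (by rw [h0]; exact h) h01
      rw [A.dir_eq h1, A.dir_eq h0.symm]
      linarith
    · have h1 := A.tc_ball h0
      have e : A.dir v₁ - A.dir v₂ = q₁⁻¹ • (v₁.1 - v₂.1) - (q₂⁻¹ - q₁⁻¹) • (v₂.1 - A.x) := by
        have e1 : A.dir v₁ = A.x + q₁⁻¹ • (v₁.1 - A.x) := by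
          have : v₁.1 - A.x = q₁ • (A.dir v₁ - A.x) := by
            rw [hq₁]
            nth_rewrite 1 [A.decomp v₁]
            module
          rw [this, smul_smul, inv_mul_cancel₀ hq1.ne']; module
        have e2 : A.dir v₂ = A.x + q₂⁻¹ • (v₂.1 - A.x) := by
          have : v₂.1 - A.x = q₂ • (A.dir v₂ - A.x) := by
            rw [hq₂]
            nth_rewrite 1 [A.decomp v₂]
            module
          rw [this, smul_smul, inv_mul_cancel₀ hq2.ne']; module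
        rw [e1, e2]
        module
      rw [e]
      refine (norm_sub_le _ _).trans ?_
      rw [norm_smul, norm_smul, Real.norm_eq_abs, Real.norm_eq_abs, abs_of_pos (by positivity),
        abs_of_nonneg (by
          have : q₁⁻¹ ≤ q₂⁻¹ := by gcongr
          linarith)]
      have e3 : q₁⁻¹ * ‖v₁.1 - v₂.1‖ ≤ δ := by
        rw [inv_mul_eq_div]; rw [hδδ]; gcongr
      have e4 : (q₂⁻¹ - q₁⁻¹) * ‖v₂.1 - A.x‖ ≤ 14 * δ := by
        have e5 : (q₂⁻¹ - q₁⁻¹) = (q₁ - q₂) / (q₁ * q₂) := by field_simp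
        rw [e5, hδδ]
        calc (q₁ - q₂) / (q₁ * q₂) * ‖v₂.1 - A.x‖ ≤ d / (q₁ * q₂) * (14 * q₂) := by
              gcongr
          _ = 14 * (d / q₁) := by field_simp
      linarith
  · rcases h02.eq_or_lt with h0 | h0
    · have h1 : A.tc v₁ = 0 := le_antisymm (by rw [h0]; exact h) h01
      left
      exact ⟨A.lev_eq_zero h1, A.lev_eq_zero h0.symm, A.dir_eq h1, A.dir_eq h0.symm⟩
    · right
      refine ⟨A.dir_norm h0, ?_⟩
      rw [A.decomp v₂]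
      refine (norm_add_le _ _).trans ?_
      have h1 := A.dir_norm h0
      rw [norm_smul, norm_smul, Real.norm_eq_abs, Real.norm_eq_abs, abs_of_pos h0, A.x_norm,
        abs_of_pos hq2]
      nlinarith

/-- main Lipschitz constant of the scaled defect -/
noncomputable def KB (a : ℝ) : ℝ := 192000 / a + 4

theorem KB_pos (ha : 0 < a) : 4 ≤ KB a := by
  unfold KB
  have : 0 < 192000 / a := by positivity
  linarith

namespace Near

variable {A} {δ s₁ s₂ : ℝ} {w₁ w₂ y₁ y₂ : Y}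

theorem ν_sub (h : A.Near δ s₁ s₂ w₁ w₂ y₁ y₂) : |A.ν s₁ w₁ - A.ν s₂ w₂| ≤ 47 * δ := by
  have h1 := A.ν_sub h.s_nonneg w₁ w₂
  have h2 := h.w_sub
  have h0 := h.δ_nonneg
  have hs := h.s_le
  have hs2 := h.s_sub
  have hn := h.s_nonneg
  rcases h.bdd with ⟨e1, e2, -, -⟩ | ⟨b1, -⟩
  · rw [e1] at h1
    rw [e1, e2]; linarith
  · have h3 := A.ν_lip s₁ s₂ hn (hn.trans hs) w₂
    rw [abs_of_nonpos (by linarith : s₁ - s₂ ≤ 0)] at h3
    have h4 : -(s₁ - s₂) * ‖w₂‖ ≤ (4 / 3 * δ) * 24 := by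
      gcongr
      linarith
    rw [abs_le] at h1 h3 ⊢
    constructor <;> linarith [h1.1, h1.2, h3.1, h3.2]

theorem N_sub (h : A.Near δ s₁ s₂ w₁ w₂ y₁ y₂) : |A.N s₁ w₁ - A.N s₂ w₂| ≤ 47 * δ := by
  have h1 := A.N_sub h.s_nonneg w₁ w₂
  have h2 := h.w_sub
  have h0 := h.δ_nonneg
  have hs := h.s_le
  have hs2 := h.s_sub
  have hn := h.s_nonneg
  rcases h.bdd with ⟨e1, e2, -, -⟩ | ⟨b1, -⟩
  · rw [e1] at h1
    rw [e1, e2]; linarith
  · have h3 := A.N_lip s₁ s₂ hn (hn.trans hs) w₂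
    rw [abs_of_nonpos (by linarith : s₁ - s₂ ≤ 0)] at h3
    have h4 : -(s₁ - s₂) * ‖w₂‖ ≤ (4 / 3 * δ) * 24 := by
      gcongr
      linarith
    rw [abs_le] at h1 h3 ⊢
    constructor <;> linarith [h1.1, h1.2, h3.1, h3.2]

theorem abs_s (h : A.Near δ s₁ s₂ w₁ w₂ y₁ y₂) : |s₁ - s₂| ≤ 4 / 3 * δ := by
  rw [abs_of_nonpos (by linarith [h.s_le])]
  linarith [h.s_sub]

theorem defect_sub (ha : 0 < a) (ha1 : a < 1) (h : A.Near δ s₁ s₂ w₁ w₂ y₁ y₂) :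
    |A.defect a s₁ w₁ - A.defect a s₂ w₂| ≤ 96 * δ := by
  have h1 := h.ν_sub
  have h2 := h.N_sub
  have h3 := wid_lip ha ha1.le h.s_nonneg (h.s_nonneg.trans h.s_le)
  have h4 := h.abs_s
  have h0 := h.δ_nonneg
  unfold defect
  have h5 : |(|A.ν s₁ w₁ - 1| - |A.ν s₂ w₂ - 1|)| ≤ 47 * δ := by
    refine (abs_abs_sub_abs_le _ _).trans ?_
    rw [sub_sub_sub_cancel_right]; exact h1
  have h6 : |max 0 (A.N s₁ w₁ - wid a s₁) - max 0 (A.N s₂ w₂ - wid a s₂)| ≤ 49 * δ := by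
    refine (abs_max_sub_max_le_max _ _ _ _).trans (max_le (by simpa using h0) ?_)
    rw [abs_le] at h2 h3 ⊢
    constructor <;> linarith [h2.1, h2.2, h3.1, h3.2]
  rw [abs_le] at h5 h6 ⊢
  constructor <;> linarith [h5.1, h5.2, h6.1, h6.2]

theorem one_le_exp (ha : 0 < a) (h : A.Near δ s₁ s₂ w₁ w₂ y₁ y₂) : 1 ≤ Real.exp (a * s₁) := by
  apply Real.one_le_exp
  have := h.s_nonneg
  positivity

theorem bet_sub (ha : 0 < a) (ha1 : a < 1) (h : A.Near δ s₁ s₂ w₁ w₂ y₁ y₂) :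
    |A.bet a s₁ w₁ - A.bet a s₂ w₂| ≤ KB a * Real.exp (a * s₁) * δ + 10 * δ := by
  have h1 := h.defect_sub ha ha1
  have h0 := h.δ_nonneg
  have hE := h.one_le_exp ha
  have hs := h.s_le
  have hs2 := h.s_sub
  have hδ := h.δ_le
  have hD := A.defect_nonneg (a := a) s₂ w₂
  set E := Real.exp (a * s₁) with hEd
  set D₁ := A.defect a s₁ w₁ with hD₁
  set D₂ := A.defect a s₂ w₂ with hD₂
  have hE2 : Real.exp (a * s₂) = Real.exp (a * (s₂ - s₁)) * E := by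
    rw [hEd, ← Real.exp_add]; ring_nf
  have hc1 : 1 ≤ Real.exp (a * (s₂ - s₁)) := by
    apply Real.one_le_exp
    have : 0 ≤ s₂ - s₁ := by linarith
    positivity
  have hc2 : Real.exp (a * (s₂ - s₁)) - 1 ≤ 2 * δ := by
    have h3 : 0 ≤ a * (s₂ - s₁) := by
      have : 0 ≤ s₂ - s₁ := by linarith
      positivity
    have h2 : a * (s₂ - s₁) ≤ 4 / 3 * δ := by nlinarith
    have h4 : a * (s₂ - s₁) ≤ 1 / 3 := by linarith
    have h5 : Real.exp (a * (s₂ - s₁)) ≤ 1 / (1 - a * (s₂ - s₁)) :=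
      Real.exp_bound_div_one_sub_of_interval h3 (by linarith)
    have h6 : 1 / (1 - a * (s₂ - s₁)) ≤ 1 + 3 / 2 * (a * (s₂ - s₁)) := by
      rw [div_le_iff₀ (by linarith)]
      nlinarith
    linarith
  set c := Real.exp (a * (s₂ - s₁)) with hc
  have hz : 0 ≤ 2000 / a * E * D₂ := by positivity
  have e1 : |min 5 (2000 / a * E * D₁) - min 5 (2000 / a * E * D₂)| ≤ 192000 / a * E * δ := by
    refine (abs_min_sub_min_le_max _ _ _ _).trans (max_le (by simp; positivity) ?_)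
    rw [← mul_sub, abs_mul, abs_of_pos (by positivity : 0 < 2000 / a * E)]
    calc 2000 / a * E * |D₁ - D₂| ≤ 2000 / a * E * (96 * δ) := by gcongr
      _ = 192000 / a * E * δ := by ring
  have e2 : |min 5 (2000 / a * E * D₂) - min 5 (c * (2000 / a * E * D₂))| ≤ 10 * δ := by
    have hmono : 2000 / a * E * D₂ ≤ c * (2000 / a * E * D₂) := by nlinarith
    rw [abs_sub_comm, abs_of_nonneg (by
      have := min_le_min_left 5 hmono
      linarith)]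
    rcases le_total 5 (2000 / a * E * D₂) with h5 | h5
    · rw [min_eq_left h5, min_eq_left (h5.trans hmono)]
      linarith
    · rw [min_eq_right h5]
      have := min_le_right 5 (c * (2000 / a * E * D₂))
      nlinarith
  have e3 : A.bet a s₂ w₂ = min 5 (c * (2000 / a * E * D₂)) := by
    unfold bet
    rw [hE2, ← hD₂]
    congr 1
    ring
  have e4 : A.bet a s₁ w₁ = min 5 (2000 / a * E * D₁) := rfl
  rw [e3, e4]
  have e5 : 192000 / a * E * δ ≤ KB a * E * δ := by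
    unfold KB
    gcongr
    linarith
  rw [abs_le] at e1 e2 ⊢
  constructor <;> linarith [e1.1, e1.2, e2.1, e2.2]

/-- simplified bound -/
theorem bet_sub' (ha : 0 < a) (ha1 : a < 1) (h : A.Near δ s₁ s₂ w₁ w₂ y₁ y₂) :
    |A.bet a s₁ w₁ - A.bet a s₂ w₂| ≤ 4 * KB a * Real.exp (a * s₁) * δ := by
  have h1 := h.bet_sub ha ha1
  have hE := h.one_le_exp ha
  have h0 := h.δ_nonneg
  have hK := KB_pos ha
  have : 10 * δ ≤ 3 * KB a * Real.exp (a * s₁) * δ := by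
    have : 10 ≤ 3 * KB a * Real.exp (a * s₁) := by nlinarith
    gcongr
  linarith

theorem lev'_sub (ha : 0 < a) (ha1 : a < 1) (h : A.Near δ s₁ s₂ w₁ w₂ y₁ y₂) :
    |A.lev' a s₁ w₁ - A.lev' a s₂ w₂| ≤ 5 * KB a * Real.exp (a * s₁) * δ := by
  have h1 := h.bet_sub' ha ha1
  have hE := h.one_le_exp ha
  have h0 := h.δ_nonneg
  have hK := KB_pos ha
  have hs := h.abs_s
  have h2 : 4 / 3 * δ ≤ KB a * Real.exp (a * s₁) * δ := by
    have : 4 / 3 ≤ KB a * Real.exp (a * s₁) := by nlinarith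
    gcongr
  have h3 : |min (A.bet a s₁ w₁) 4 - min (A.bet a s₂ w₂) 4| ≤
      4 * KB a * Real.exp (a * s₁) * δ := by
    refine (abs_min_sub_min_le_max _ _ _ _).trans (max_le h1 ?_)
    simp
    positivity
  unfold lev'
  refine (abs_max_sub_max_le_max _ _ _ _).trans (max_le (by simp; positivity) ?_)
  rw [abs_le] at hs h3 ⊢
  constructor <;> linarith [h3.1, h3.2, hs.1, hs.2]

theorem lam_sub (ha : 0 < a) (ha1 : a < 1) (h : A.Near δ s₁ s₂ w₁ w₂ y₁ y₂) :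
    |A.lam a s₁ w₁ - A.lam a s₂ w₂| ≤ 4 * KB a * Real.exp (a * s₁) * δ := by
  have h1 := h.bet_sub' ha ha1
  have h0 := h.δ_nonneg
  have hK := KB_pos ha
  unfold lam
  refine (abs_max_sub_max_le_max _ _ _ _).trans (max_le (by simp; positivity) ?_)
  rwa [sub_sub_sub_cancel_right]

/-- if the mixing parameters differ then `w₂` and the target are bounded -/
theorem bdd_of_lam (ha : 0 < a) (ha1 : a < 1) (h : A.Near δ s₁ s₂ w₁ w₂ y₁ y₂)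
    (hl : A.lam a s₁ w₁ ≠ A.lam a s₂ w₂) : ‖w₂‖ ≤ 24 ∧ ‖A.tgt s₂ y₂‖ ≤ 104 := by
  have h0 := h.δ_nonneg
  have hδ := h.δ_le
  rcases h.bdd with ⟨e1, e2, e3, e4⟩ | ⟨b1, b2⟩
  · have hw : ‖w₂‖ ≤ 24 := by
      by_cases c1 : A.bet a s₁ w₁ < 5
      · obtain ⟨-, -, -, b⟩ := A.small ha ha1 h.s_nonneg c1
        have h2 : ‖w₂‖ ≤ ‖w₁‖ + ‖w₁ - w₂‖ := by
          have := norm_sub_le w₁ (w₁ - w₂)
          rwa [sub_sub_cancel] at this
        have h3 := h.w_sub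
        linarith
      · by_cases c2 : A.bet a s₂ w₂ < 5
        · obtain ⟨-, -, -, b⟩ := A.small ha ha1 (h.s_nonneg.trans h.s_le) c2
          linarith
        · exfalso
          apply hl
          have d1 : A.bet a s₁ w₁ = 5 := le_antisymm (A.bet_le _ _) (not_lt.1 c1)
          have d2 : A.bet a s₂ w₂ = 5 := le_antisymm (A.bet_le _ _) (not_lt.1 c2)
          unfold lam
          rw [d1, d2]
    refine ⟨hw, ?_⟩
    rw [A.tgt_of_le (by rw [e2]; norm_num), ← e4]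
    linarith
  · refine ⟨b1, ?_⟩
    unfold tgt
    set θ := min 1 (max 0 (s₂ - 3)) with hθ
    have hθ0 : 0 ≤ θ := le_min (by norm_num) (le_max_left _ _)
    have hθ1 : θ ≤ 1 := min_le_left _ _
    refine (norm_add_le _ _).trans ?_
    have hP := A.P_norm (max s₂ 4) (le_trans (by norm_num) (le_max_right _ _))
    rw [norm_smul, norm_smul, norm_smul, Real.norm_eq_abs, Real.norm_eq_abs, Real.norm_eq_abs,
      abs_of_nonneg hθ0, abs_of_nonneg (by linarith : 0 ≤ 1 - θ),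
      abs_of_pos (by norm_num : (0:ℝ) < 80)]
    have h5 := norm_nonneg (A.P (max s₂ 4))
    nlinarith [norm_nonneg y₂]

theorem tgt_sub (h : A.Near δ s₁ s₂ w₁ w₂ y₁ y₂) : ‖A.tgt s₁ y₁ - A.tgt s₂ y₂‖ ≤ 353 * δ := by
  have h0 := h.δ_nonneg
  have hy := h.y_sub
  rcases h.bdd with ⟨e1, e2, e3, e4⟩ | ⟨b1, b2⟩
  · rw [A.tgt_of_le (by rw [e1]; norm_num), A.tgt_of_le (by rw [e2]; norm_num)]
    linarith
  · unfold tgt
    set θ₁ := min 1 (max 0 (s₁ - 3)) with hθ₁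
    set θ₂ := min 1 (max 0 (s₂ - 3)) with hθ₂
    have h10 : 0 ≤ θ₁ := le_min (by norm_num) (le_max_left _ _)
    have h11 : θ₁ ≤ 1 := min_le_left _ _
    have hs := h.abs_s
    have hθ : |θ₁ - θ₂| ≤ 4 / 3 * δ := by
      refine (abs_min_sub_min_le_max _ _ _ _).trans (max_le (by simp; positivity) ?_)
      refine (abs_max_sub_max_le_max _ _ _ _).trans (max_le (by simp; positivity) ?_)
      rwa [sub_sub_sub_cancel_right]
    have hm1 : 0 ≤ max s₁ 4 := le_trans (by norm_num) (le_max_right _ _)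
    have hm2 : 0 ≤ max s₂ 4 := le_trans (by norm_num) (le_max_right _ _)
    have hP := A.P_lip (max s₁ 4) (max s₂ 4) hm1 hm2
    have hP2 := A.P_norm (max s₂ 4) hm2
    have hm : |max s₁ 4 - max s₂ 4| ≤ 4 / 3 * δ := by
      refine (abs_max_sub_max_le_max _ _ _ _).trans (max_le hs (by simp; positivity))
    have e : θ₁ • (80:ℝ) • A.P (max s₁ 4) + (1 - θ₁) • y₁ -
        (θ₂ • (80:ℝ) • A.P (max s₂ 4) + (1 - θ₂) • y₂) =
        (80 * θ₁) • (A.P (max s₁ 4) - A.P (max s₂ 4)) + (80 * (θ₁ - θ₂)) • A.P (max s₂ 4) +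
        (1 - θ₁) • (y₁ - y₂) + (θ₂ - θ₁) • y₂ := by
      module
    rw [e]
    refine (norm_add_le _ _).trans ?_
    have n1 : ‖(80 * θ₁) • (A.P (max s₁ 4) - A.P (max s₂ 4))‖ ≤ 640 / 3 * δ := by
      rw [norm_smul, Real.norm_eq_abs, abs_of_nonneg (by positivity)]
      calc 80 * θ₁ * ‖A.P (max s₁ 4) - A.P (max s₂ 4)‖ ≤ 80 * 1 * (2 * (4 / 3 * δ)) := by
            gcongr
            exact hP.trans (by gcongr)
        _ = 640 / 3 * δ := by ring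
    have n2 : ‖(80 * (θ₁ - θ₂)) • A.P (max s₂ 4)‖ ≤ 320 / 3 * δ := by
      rw [norm_smul, Real.norm_eq_abs, abs_mul, abs_of_pos (by norm_num : (0:ℝ) < 80)]
      calc 80 * |θ₁ - θ₂| * ‖A.P (max s₂ 4)‖ ≤ 80 * (4 / 3 * δ) * 1 := by gcongr
        _ = 320 / 3 * δ := by ring
    have n3 : ‖(1 - θ₁) • (y₁ - y₂)‖ ≤ δ := by
      rw [norm_smul, Real.norm_eq_abs, abs_of_nonneg (by linarith)]
      calc (1 - θ₁) * ‖y₁ - y₂‖ ≤ 1 * δ := by
            gcongr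
            linarith
        _ = δ := one_mul _
    have n4 : ‖(θ₂ - θ₁) • y₂‖ ≤ 32 * δ := by
      rw [norm_smul, Real.norm_eq_abs, abs_sub_comm]
      calc |θ₁ - θ₂| * ‖y₂‖ ≤ (4 / 3 * δ) * 24 := by gcongr
        _ = 32 * δ := by ring
    have n5 := norm_add_le ((80 * θ₁) • (A.P (max s₁ 4) - A.P (max s₂ 4)) +
      (80 * (θ₁ - θ₂)) • A.P (max s₂ 4)) ((1 - θ₁) • (y₁ - y₂))
    have n6 := norm_add_le ((80 * θ₁) • (A.P (max s₁ 4) - A.P (max s₂ 4)))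
      ((80 * (θ₁ - θ₂)) • A.P (max s₂ 4))
    linarith

theorem mix_sub (ha : 0 < a) (ha1 : a < 1) (h : A.Near δ s₁ s₂ w₁ w₂ y₁ y₂) :
    ‖A.mix a s₁ w₁ y₁ - A.mix a s₂ w₂ y₂‖ ≤ 9000 * KB a * Real.exp (a * s₁) * δ := by
  have h0 := h.δ_nonneg
  have hE := h.one_le_exp ha
  have hK := KB_pos ha
  have hw := h.w_sub
  have ht := h.tgt_sub
  have hl := h.lam_sub ha ha1
  have l10 := A.lam_nonneg (a := a) s₁ w₁
  have l11 := A.lam_le (a := a) s₁ w₁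
  have hb := h.bdd_of_lam ha ha1
  unfold mix
  set l₁ := A.lam a s₁ w₁ with hl₁
  set l₂ := A.lam a s₂ w₂ with hl₂
  set t₁ := A.tgt s₁ y₁ with ht₁
  set t₂ := A.tgt s₂ y₂ with ht₂
  have e : (80 * (1 - l₁)) • w₁ + l₁ • t₁ - ((80 * (1 - l₂)) • w₂ + l₂ • t₂) =
      (80 * (1 - l₁)) • (w₁ - w₂) + (80 * (l₂ - l₁)) • w₂ + l₁ • (t₁ - t₂) +
        (l₁ - l₂) • t₂ := by module
  rw [e]
  have n1 : ‖(80 * (1 - l₁)) • (w₁ - w₂)‖ ≤ 1200 * δ := by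
    rw [norm_smul, Real.norm_eq_abs, abs_of_nonneg (by linarith)]
    calc 80 * (1 - l₁) * ‖w₁ - w₂‖ ≤ 80 * 1 * (15 * δ) := by
          gcongr
          linarith
      _ = 1200 * δ := by ring
  have n2 : ‖(80 * (l₂ - l₁)) • w₂‖ ≤ 1920 * |l₁ - l₂| := by
    by_cases hc : l₁ = l₂
    · rw [hc]; simp
    · have := (hb hc).1
      rw [norm_smul, Real.norm_eq_abs, abs_mul, abs_of_pos (by norm_num : (0:ℝ) < 80),
        abs_sub_comm]
      calc 80 * |l₁ - l₂| * ‖w₂‖ ≤ 80 * |l₁ - l₂| * 24 := by gcongr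
        _ = 1920 * |l₁ - l₂| := by ring
  have n3 : ‖l₁ • (t₁ - t₂)‖ ≤ 353 * δ := by
    rw [norm_smul, Real.norm_eq_abs, abs_of_nonneg l10]
    calc l₁ * ‖t₁ - t₂‖ ≤ 1 * (353 * δ) := by gcongr
      _ = 353 * δ := one_mul _
  have n4 : ‖(l₁ - l₂) • t₂‖ ≤ 104 * |l₁ - l₂| := by
    by_cases hc : l₁ = l₂
    · rw [hc]; simp
    · have := (hb hc).2
      rw [norm_smul, Real.norm_eq_abs, mul_comm]
      gcongr
  have n5 := norm_add_le ((80 * (1 - l₁)) • (w₁ - w₂) + (80 * (l₂ - l₁)) • w₂ + l₁ • (t₁ - t₂))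
    ((l₁ - l₂) • t₂)
  have n6 := norm_add_le ((80 * (1 - l₁)) • (w₁ - w₂) + (80 * (l₂ - l₁)) • w₂) (l₁ • (t₁ - t₂))
  have n7 := norm_add_le ((80 * (1 - l₁)) • (w₁ - w₂)) ((80 * (l₂ - l₁)) • w₂)
  have n8 : 1553 * δ ≤ 404 * KB a * Real.exp (a * s₁) * δ := by
    have : 1553 ≤ 404 * KB a * Real.exp (a * s₁) := by nlinarith
    gcongr
  have n9 : 2024 * |l₁ - l₂| ≤ 8096 * KB a * Real.exp (a * s₁) * δ := by linarith
  have n10 : 0 ≤ KB a * Real.exp (a * s₁) * δ := by positivity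
  linarith

theorem dir'_sub (hR : SphereRetr R C) (ha : 0 < a) (ha1 : a < 1)
    (h : A.Near δ s₁ s₂ w₁ w₂ y₁ y₂) :
    ‖A.dir' a R s₁ w₁ y₁ - A.dir' a R s₂ w₂ y₂‖ ≤
      600000000 * C * KB a * Real.exp (a * s₁) * δ := by
  have h0 := h.δ_nonneg
  have hE := h.one_le_exp ha
  have hK := KB_pos ha
  have hC := hR.one_le
  have hm := h.mix_sub ha ha1
  have hl := h.lev'_sub ha ha1
  have hs2 : 0 ≤ s₂ := h.s_nonneg.trans h.s_le
  have hν1 := A.ν_R hR ha ha1 h.s_nonneg (h.s_le.trans h.s_n) w₁ y₁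
  have hν2 := A.ν_R hR ha ha1 hs2 h.s_n w₂ y₂
  have hr := hR.lip (A.mix a s₁ w₁ y₁) (A.mix a s₂ w₂ y₂)
  have hr1 := hR.norm (A.mix a s₁ w₁ y₁)
  have hr2 := hR.norm (A.mix a s₂ w₂ y₂)
  have l1 := A.lev'_nonneg (a := a) s₁ w₁
  have l2 := A.lev'_nonneg (a := a) s₂ w₂
  unfold dir'
  set L₁ := A.lev' a s₁ w₁
  set L₂ := A.lev' a s₂ w₂
  set r₁ := R (A.mix a s₁ w₁ y₁)
  set r₂ := R (A.mix a s₂ w₂ y₂)
  have hX : 0 ≤ KB a * Real.exp (a * s₁) * δ := by positivity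
  set X := KB a * Real.exp (a * s₁) * δ with hXd
  have hm' : ‖A.mix a s₁ w₁ y₁ - A.mix a s₂ w₂ y₂‖ ≤ 9000 * X := by
    rw [hXd]; linarith
  have hl' : |L₁ - L₂| ≤ 5 * X := by rw [hXd]; linarith
  have hrr : ‖r₁ - r₂‖ ≤ 9000 * (C * X) := by
    refine hr.trans ?_
    calc C * ‖A.mix a s₁ w₁ y₁ - A.mix a s₂ w₂ y₂‖ ≤ C * (9000 * X) := by gcongr
      _ = 9000 * (C * X) := by ring
  have hXC : X ≤ C * X := by nlinarith
  have hνν : |A.ν L₁ r₁ - A.ν L₂ r₂| ≤ 9005 * (C * X) := by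
    have t1 := A.ν_sub l1 r₁ r₂
    have t2 := A.ν_lip L₁ L₂ l1 l2 r₂
    rw [hr2, mul_one] at t2
    rw [abs_le] at t1 t2 ⊢
    constructor <;> linarith [t1.1, t1.2, t2.1, t2.2]
  have p1 : 0 < A.ν L₁ r₁ := by linarith
  have p2 : 0 < A.ν L₂ r₂ := by linarith
  have i1 : (A.ν L₁ r₁)⁻¹ ≤ 248 := by
    rw [inv_le_comm₀ p1 (by norm_num)]; linarith
  have i2 : (A.ν L₂ r₂)⁻¹ ≤ 248 := by
    rw [inv_le_comm₀ p2 (by norm_num)]; linarith
  have e : (A.ν L₁ r₁)⁻¹ • r₁ - (A.ν L₂ r₂)⁻¹ • r₂ =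
      (A.ν L₁ r₁)⁻¹ • (r₁ - r₂) + ((A.ν L₁ r₁)⁻¹ - (A.ν L₂ r₂)⁻¹) • r₂ := by module
  rw [e]
  refine (norm_add_le _ _).trans ?_
  rw [norm_smul, norm_smul, hr2, mul_one, Real.norm_eq_abs, Real.norm_eq_abs,
    abs_of_pos (inv_pos.2 p1)]
  have n1 : (A.ν L₁ r₁)⁻¹ * ‖r₁ - r₂‖ ≤ 248 * (9000 * (C * X)) := by gcongr
  have n2 : |(A.ν L₁ r₁)⁻¹ - (A.ν L₂ r₂)⁻¹| ≤ 248 * 248 * (9005 * (C * X)) := by
    have e2 : (A.ν L₁ r₁)⁻¹ - (A.ν L₂ r₂)⁻¹ =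
        -((A.ν L₁ r₁)⁻¹ * (A.ν L₂ r₂)⁻¹ * (A.ν L₁ r₁ - A.ν L₂ r₂)) := by
      field_simp
      ring
    rw [e2, abs_neg, abs_mul, abs_of_pos (by positivity : 0 < (A.ν L₁ r₁)⁻¹ * (A.ν L₂ r₂)⁻¹)]
    gcongr
  have n3 : 0 ≤ C * X := by positivity
  have n4 : 600000000 * C * KB a * Real.exp (a * s₁) * δ = 600000000 * (C * X) := by
    rw [hXd]; ring
  rw [n4]
  linarith

end Near

end Arm

end Pool.Agent.TH281.HB
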