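import Pool.Agent.TH281.HB.Hoelder

namespace Pool.Agent.TH281.HB

namespace Arm

variable {Y : Type*} [NormedAddCommGroup Y] [NormedSpace ℝ Y] (A : Arm Y) {a : ℝ}
  {R : Y → Y} {C : ℝ}

theorem exp_sub_le {l₁ l₂ m : ℝ} (h1 : m ≤ l₁) (h2 : m ≤ l₂) :
    |Real.exp (-l₁) - Real.exp (-l₂)| ≤ Real.exp (-m) * |l₁ - l₂| := by
  have key : ∀ l₁ l₂ : ℝ, m ≤ l₁ → l₁ ≤ l₂ →
      |Real.exp (-l₁) - Real.exp (-l₂)| ≤ Real.exp (-m) * |l₁ - l₂| := by
    intro l₁ l₂ h1 h12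
    have e1 : Real.exp (-l₂) = Real.exp (-l₁) * Real.exp (-(l₂ - l₁)) := by
      rw [← Real.exp_add]; ring_nf
    have e2 := Real.add_one_le_exp (-(l₂ - l₁))
    have e3 : Real.exp (-l₁) ≤ Real.exp (-m) := Real.exp_le_exp.2 (by linarith)
    have e4 := Real.exp_pos (-l₁)
    have e5 : Real.exp (-(l₂ - l₁)) ≤ 1 := Real.exp_le_one_iff.2 (by linarith)
    rw [abs_of_nonneg (by rw [e1]; nlinarith), abs_of_nonpos (by linarith), e1]
    have e6 : Real.exp (-l₁) * (l₂ - l₁) ≤ Real.exp (-m) * (l₂ - l₁) := by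
      gcongr
    nlinarith
  rcases le_total l₁ l₂ with h | h
  · exact key l₁ l₂ h1 h
  · rw [abs_sub_comm, abs_sub_comm l₁ l₂]
    exact key l₂ l₁ h2 h

theorem pt_sub {l₁ l₂ s : ℝ} {u₁ u₂ : Y} {ε : ℝ} (hε : |ε| ≤ 1) (h1 : s - 4 ≤ l₁)
    (h2 : s - 4 ≤ l₂) (hu₁ : ‖u₁‖ ≤ 248) :
    ‖A.pt l₁ (ε • u₁) - A.pt l₂ (ε • u₂)‖ ≤
      Real.exp 4 * Real.exp (-s) * (258 * |l₁ - l₂| + ‖u₁ - u₂‖) := by
  have hE : Real.exp (-(s - 4)) = Real.exp 4 * Real.exp (-s) := by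
    rw [← Real.exp_add]; ring_nf
  have h3 := exp_sub_le h1 h2
  rw [hE] at h3
  have h4 : Real.exp (-l₂) ≤ Real.exp 4 * Real.exp (-s) := by
    rw [← hE]; exact Real.exp_le_exp.2 (by linarith)
  set Q := Real.exp 4 * Real.exp (-s) with hQ
  have hQ0 : 0 ≤ Q := by positivity
  have hp := Real.exp_pos (-l₂)
  rw [Prod.norm_def]
  apply max_le
  · have e : (A.pt l₁ (ε • u₁) - A.pt l₂ (ε • u₂)).1 =
        (Real.exp (-l₂) - Real.exp (-l₁)) • A.x + (ε * (Real.exp (-l₁) - Real.exp (-l₂))) • u₁ +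
          (ε * Real.exp (-l₂)) • (u₁ - u₂) := by
      unfold pt
      simp only [Prod.fst_sub]
      module
    rw [e]
    have n1 := norm_add_le ((Real.exp (-l₂) - Real.exp (-l₁)) • A.x +
      (ε * (Real.exp (-l₁) - Real.exp (-l₂))) • u₁) ((ε * Real.exp (-l₂)) • (u₁ - u₂))
    have n2 := norm_add_le ((Real.exp (-l₂) - Real.exp (-l₁)) • A.x)
      ((ε * (Real.exp (-l₁) - Real.exp (-l₂))) • u₁)
    have n3 : ‖(Real.exp (-l₂) - Real.exp (-l₁)) • A.x‖ ≤ Q * |l₁ - l₂| * 10 := by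
      rw [norm_smul, A.x_norm, Real.norm_eq_abs, abs_sub_comm]
      gcongr
    have n4 : ‖(ε * (Real.exp (-l₁) - Real.exp (-l₂))) • u₁‖ ≤ 1 * (Q * |l₁ - l₂|) * 248 := by
      rw [norm_smul, Real.norm_eq_abs, abs_mul]
      gcongr
    have n5 : ‖(ε * Real.exp (-l₂)) • (u₁ - u₂)‖ ≤ 1 * Q * ‖u₁ - u₂‖ := by
      rw [norm_smul, Real.norm_eq_abs, abs_mul, abs_of_pos hp]
      gcongr
    linarith
  · have e : (A.pt l₁ (ε • u₁) - A.pt l₂ (ε • u₂)).2 = Real.exp (-l₂) - Real.exp (-l₁) := by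
      unfold pt
      simp only [Prod.snd_sub]
      ring
    rw [e, Real.norm_eq_abs, abs_sub_comm]
    have : 0 ≤ Q * ‖u₁ - u₂‖ := by positivity
    have : 0 ≤ Q * |l₁ - l₂| := by positivity
    linarith

theorem pt_sub_apex {l s : ℝ} {u : Y} {ε : ℝ} (hε : |ε| ≤ 1) (h1 : s - 4 ≤ l)
    (hu : ‖u‖ ≤ 248) :
    ‖A.pt l (ε • u) - (A.x, 1)‖ ≤ 258 * (Real.exp 4 * Real.exp (-s)) := by
  have hE : Real.exp (-(s - 4)) = Real.exp 4 * Real.exp (-s) := by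
    rw [← Real.exp_add]; ring_nf
  have h4 : Real.exp (-l) ≤ Real.exp 4 * Real.exp (-s) := by
    rw [← hE]; exact Real.exp_le_exp.2 (by linarith)
  have hp := Real.exp_pos (-l)
  rw [Prod.norm_def]
  apply max_le
  · have e : (A.pt l (ε • u) - (A.x, (1:ℝ))).1 =
        (-Real.exp (-l)) • A.x + (ε * Real.exp (-l)) • u := by
      unfold pt
      simp only [Prod.fst_sub]
      module
    rw [e]
    refine (norm_add_le _ _).trans ?_
    rw [norm_smul, norm_smul, A.x_norm, Real.norm_eq_abs, Real.norm_eq_abs, abs_neg,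
      abs_of_pos hp, abs_mul, abs_of_pos hp]
    have n4 : |ε| * Real.exp (-l) * ‖u‖ ≤ 1 * Real.exp (-l) * 248 := by gcongr
    linarith
  · have e : (A.pt l (ε • u) - (A.x, (1:ℝ))).2 = -Real.exp (-l) := by
      unfold pt
      simp only [Prod.snd_sub]
      ring
    rw [e, Real.norm_eq_abs, abs_neg, abs_of_pos hp]
    linarith

/-- the Hölder constant -/
noncomputable def KH (a C : ℝ) : ℝ := Real.exp 4 * (700000000 * C * KB a)

theorem ret_holder_aux (hR : SphereRetr R C) (ha : 0 < a) (ha1 : a < 1) {ε : ℝ}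
    (hε : |ε| ≤ 1) (v₁ v₂ : Y × ℝ) (hle : A.tc v₁ ≤ A.tc v₂) :
    ‖A.ret a R ε v₁ - A.ret a R ε v₂‖ ≤ KH a C * ‖v₁ - v₂‖ ^ (1 - a) := by
  have hq1 : 0 < 1 - A.tc v₁ := by linarith [A.tc_lt v₁]
  have hq2 : 0 < 1 - A.tc v₂ := by linarith [A.tc_lt v₂]
  have h01 := A.tc_nonneg v₁
  have he1 := A.exp_neg_lev v₁
  have he2 := A.exp_neg_lev v₂
  have hd0 : 0 ≤ ‖v₁ - v₂‖ := norm_nonneg _
  have hC := hR.one_le
  have hK := KB_pos ha
  have h4 := Real.exp_pos 4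
  have hs1 := A.lev_nonneg v₁
  have hs2 := A.lev_nonneg v₂
  have hu1 := A.norm_dir' hR ha ha1 hs1 (A.lev_le v₁) (A.dir v₁) v₁.1
  have hu2 := A.norm_dir' hR ha ha1 hs2 (A.lev_le v₂) (A.dir v₂) v₂.1
  have hl1 := A.le_lev' (a := a) (A.lev v₁) (A.dir v₁)
  have hl2 := A.le_lev' (a := a) (A.lev v₂) (A.dir v₂)
  have hCK : 1 ≤ C * KB a := by nlinarith
  rcases lt_or_ge ‖v₁ - v₂‖ ((1 - A.tc v₁) / 4) with hd | hd
  · -- nearby points
    have hn := A.near v₁ v₂ hle hd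
    rcases hd0.eq_or_lt with h0 | h0
    · have : v₁ = v₂ := sub_eq_zero.1 (norm_eq_zero.1 h0.symm)
      rw [this, sub_self, norm_zero]
      unfold KH
      positivity
    have hδ : ‖v₁ - v₂‖ / (1 - A.tc v₁) * (1 - A.tc v₁) = ‖v₁ - v₂‖ :=
      div_mul_cancel₀ _ hq1.ne'
    have hdir := hn.dir'_sub hR ha ha1
    have hlev := hn.lev'_sub ha ha1
    have hE := hn.one_le_exp ha
    set δ := ‖v₁ - v₂‖ / (1 - A.tc v₁) with hδd
    have hδ0 : 0 ≤ δ := hn.δ_nonneg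
    have hp := A.pt_sub (ε := ε) (s := A.lev v₁) hε hl1
      (by linarith [hn.s_le] : A.lev v₁ - 4 ≤ A.lev' a (A.lev v₂) (A.dir v₂)) hu1
      (u₂ := A.dir' a R (A.lev v₂) (A.dir v₂) v₂.1)
    unfold ret
    refine hp.trans ?_
    have hE2 : Real.exp (a * A.lev v₁) * ‖v₁ - v₂‖ ≤ ‖v₁ - v₂‖ ^ (1 - a) := by
      have e1 : Real.exp (a * A.lev v₁) = (1 - A.tc v₁) ^ (-a) := by
        rw [← he1, ← Real.exp_mul]
        ring_nf
      rw [e1, sub_eq_add_neg 1 a, Real.rpow_add h0, Real.rpow_one, mul_comm]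
      apply mul_le_mul_of_nonneg_left _ h0.le
      exact Real.rpow_le_rpow_of_nonpos h0 (by linarith) (by linarith)
    set E := Real.exp (a * A.lev v₁) with hEd
    have hX : 0 ≤ KB a * E * δ := by positivity
    have hXC : KB a * E * δ ≤ C * (KB a * E * δ) := by nlinarith
    have hsum : 258 * |A.lev' a (A.lev v₁) (A.dir v₁) - A.lev' a (A.lev v₂) (A.dir v₂)| +
        ‖A.dir' a R (A.lev v₁) (A.dir v₁) v₁.1 - A.dir' a R (A.lev v₂) (A.dir v₂) v₂.1‖ ≤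
        700000000 * C * KB a * (E * δ) := by
      nlinarith
    rw [he1]
    calc Real.exp 4 * (1 - A.tc v₁) *
        (258 * |A.lev' a (A.lev v₁) (A.dir v₁) - A.lev' a (A.lev v₂) (A.dir v₂)| +
        ‖A.dir' a R (A.lev v₁) (A.dir v₁) v₁.1 - A.dir' a R (A.lev v₂) (A.dir v₂) v₂.1‖) ≤
        Real.exp 4 * (1 - A.tc v₁) * (700000000 * C * KB a * (E * δ)) := by gcongr
      _ = KH a C * (E * (δ * (1 - A.tc v₁))) := by unfold KH; ring
      _ = KH a C * (E * ‖v₁ - v₂‖) := by rw [hδ]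
      _ ≤ KH a C * ‖v₁ - v₂‖ ^ (1 - a) := by
          apply mul_le_mul_of_nonneg_left hE2
          unfold KH
          positivity
  · -- far points
    have p1 := A.pt_sub_apex (ε := ε) (s := A.lev v₁) hε hl1 hu1
    have p2 := A.pt_sub_apex (ε := ε) (s := A.lev v₂) hε hl2 hu2
    rw [he1] at p1
    rw [he2] at p2
    have e : A.ret a R ε v₁ - A.ret a R ε v₂ =
        (A.ret a R ε v₁ - (A.x, 1)) - (A.ret a R ε v₂ - (A.x, 1)) := by abel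
    rw [e]
    refine (norm_sub_le _ _).trans ?_
    have p3 : ‖A.ret a R ε v₁ - (A.x, 1)‖ ≤ 258 * (Real.exp 4 * (1 - A.tc v₁)) := p1
    have p4 : ‖A.ret a R ε v₂ - (A.x, 1)‖ ≤ 258 * (Real.exp 4 * (1 - A.tc v₁)) := by
      refine p2.trans ?_
      gcongr
    have hq : 1 - A.tc v₁ ≤ 4 * ‖v₁ - v₂‖ ^ (1 - a) := by
      have q1 : 1 - A.tc v₁ ≤ (1 - A.tc v₁) ^ (1 - a) := by
        have := Real.rpow_le_rpow_of_exponent_ge hq1 (by linarith : 1 - A.tc v₁ ≤ 1)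
          (by linarith : 1 - a ≤ 1)
        rwa [Real.rpow_one] at this
      have q2 : (1 - A.tc v₁) ^ (1 - a) ≤ (4 * ‖v₁ - v₂‖) ^ (1 - a) :=
        Real.rpow_le_rpow hq1.le (by linarith) (by linarith)
      have q3 : (4 * ‖v₁ - v₂‖) ^ (1 - a) = 4 ^ (1 - a) * ‖v₁ - v₂‖ ^ (1 - a) :=
        Real.mul_rpow (by norm_num) hd0
      have q4 : (4:ℝ) ^ (1 - a) ≤ 4 := by
        have := Real.rpow_le_rpow_of_exponent_le (by norm_num : (1:ℝ) ≤ 4)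
          (by linarith : 1 - a ≤ 1)
        rwa [Real.rpow_one] at this
      have q5 : 0 ≤ ‖v₁ - v₂‖ ^ (1 - a) := Real.rpow_nonneg hd0 _
      nlinarith
    have q5 : 0 ≤ ‖v₁ - v₂‖ ^ (1 - a) := Real.rpow_nonneg hd0 _
    calc ‖A.ret a R ε v₁ - (A.x, 1)‖ + ‖A.ret a R ε v₂ - (A.x, 1)‖ ≤
        516 * (Real.exp 4 * (1 - A.tc v₁)) := by linarith
      _ ≤ 516 * (Real.exp 4 * (4 * ‖v₁ - v₂‖ ^ (1 - a))) := by gcongr
      _ = Real.exp 4 * 2064 * ‖v₁ - v₂‖ ^ (1 - a) := by ring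
      _ ≤ KH a C * ‖v₁ - v₂‖ ^ (1 - a) := by
          unfold KH
          gcongr
          nlinarith

theorem ret_holder (hR : SphereRetr R C) (ha : 0 < a) (ha1 : a < 1) {ε : ℝ}
    (hε : |ε| ≤ 1) (v₁ v₂ : Y × ℝ) :
    ‖A.ret a R ε v₁ - A.ret a R ε v₂‖ ≤ KH a C * ‖v₁ - v₂‖ ^ (1 - a) := by
  rcases le_total (A.tc v₁) (A.tc v₂) with h | h
  · exact A.ret_holder_aux hR ha ha1 hε v₁ v₂ h
  · rw [norm_sub_rev, norm_sub_rev v₁]
    exact A.ret_holder_aux hR ha ha1 hε v₂ v₁ h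

end Arm

end Pool.Agent.TH281.HB
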