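import Pool.Agent.TH281.HB.Hoelder2
import Pool.Agent.TH554.J1152
import Pool.Agent.TH571.J1153
import Pool.Agent.TH571.J1154
import Pool.Agent.TH444.J1155
import Pool.Agent.TH828.J1156
import Pool.Agent.H465R3.Retr

namespace Pool.Agent.TH281.HB

open Pool.Agent.H465R3

variable {Y : Type*} [NormedAddCommGroup Y] [NormedSpace ℝ Y]

/-- the glued map -/
noncomputable def glued (A : ℕ → Arm Y) (a : ℝ) (R : Y → Y) (ε : ℝ) (v : Y × ℝ) : Y × ℝ := by
  classical
  exact if h : ∃ k, v.1 ∈ (A k).reg then (A h.choose).ret a R ε v else (ε • R v.1, 0)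

section

variable {A : ℕ → Arm Y} {a : ℝ} {R : Y → Y} {C : ℝ}

theorem glued_of_mem (hd : ∀ k l, k ≠ l → Disjoint (A k).reg (A l).reg) {k : ℕ} {v : Y × ℝ}
    (h : v.1 ∈ (A k).reg) (ε : ℝ) : glued A a R ε v = (A k).ret a R ε v := by
  have h' : ∃ k, v.1 ∈ (A k).reg := ⟨k, h⟩
  have e : h'.choose = k := by
    by_contra hne
    exact Set.disjoint_left.1 (hd _ _ hne) h'.choose_spec h
  unfold glued
  rw [dif_pos h', e]

theorem glued_of_not {v : Y × ℝ} (h : ∀ k, v.1 ∉ (A k).reg) (ε : ℝ) :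
    glued A a R ε v = (ε • R v.1, 0) := by
  unfold glued
  rw [dif_neg]
  rintro ⟨k, hk⟩
  exact h k hk

theorem glued_hub (hR : SphereRetr R C) (ha : 0 < a)
    (hd : ∀ k l, k ≠ l → Disjoint (A k).reg (A l).reg) {y : Y} (hy : ‖y‖ = 1) (ε : ℝ) :
    glued A a R ε (y, 0) = (ε • y, 0) := by
  by_cases h : ∃ k, y ∈ (A k).reg
  · obtain ⟨k, hk⟩ := h
    rw [glued_of_mem hd (k := k) (v := (y, 0)) hk, (A k).ret_hub hR ha hy]
  · push Not at h
    rw [glued_of_not (v := (y, 0)) h, hR.eq _ hy.ge, hy]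
    simp

theorem core_smul {B : Arm Y} {s : ℝ} {u : Y} (h : B.Core a s u) {ε : ℝ} (hε : |ε| = 1) :
    B.Core a s (ε • u) := by
  obtain ⟨h1, h2, h3, h4⟩ := h
  refine ⟨h1, h2, ?_, ?_⟩
  · rw [B.ν_smul s h1, hε, one_mul, h3]
  · rw [B.N_smul s h1, hε, one_mul]; exact h4

theorem glued_comp (hR : SphereRetr R C) (ha : 0 < a) (ha1 : a < 1)
    (hd : ∀ k l, k ≠ l → Disjoint (A k).reg (A l).reg) {ε ε' : ℝ} (hε : |ε| = 1)
    (v : Y × ℝ) : glued A a R ε' (glued A a R ε v) = glued A a R (ε' * ε) v := by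
  by_cases h : ∃ k, v.1 ∈ (A k).reg
  · obtain ⟨k, hk⟩ := h
    rw [glued_of_mem hd hk, glued_of_mem hd hk]
    have hs := (A k).lev_nonneg v
    have hn := (A k).lev_le v
    unfold Arm.ret
    rcases ((A k).lev'_nonneg (a := a) ((A k).lev v) ((A k).dir v)).eq_or_lt with h0 | h0
    · have hu : ‖(A k).dir' a R ((A k).lev v) ((A k).dir v) v.1‖ = 1 := by
        rw [(A k).dir'_zero hR h0.symm, hR.norm]
      rw [← h0, (A k).pt_zero, (A k).pt_zero, glued_hub hR ha hd
        (by rw [norm_smul, Real.norm_eq_abs, hε, one_mul, hu]), smul_smul]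
    · have hc := (A k).dir'_core hR ha ha1 hs hn ((A k).dir v) v.1 h0
      have hc' := core_smul hc hε
      rw [glued_of_mem hd ((A k).core_reg ha hc'), (A k).ret_pt hR ha hc', smul_smul]
  · push Not at h
    rw [glued_of_not h, glued_of_not h, glued_hub hR ha hd
      (by rw [norm_smul, Real.norm_eq_abs, hε, one_mul, hR.norm]), smul_smul]

theorem norm_pt_le {B : Arm Y} {s : ℝ} (hs : 0 ≤ s) {u : Y} (hu : ‖u‖ ≤ 248) :
    ‖B.pt s u‖ ≤ 258 := by
  have h1 : Real.exp (-s) ≤ 1 := Real.exp_le_one_iff.2 (by linarith)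
  have h2 := Real.exp_pos (-s)
  rw [Prod.norm_def]
  apply max_le
  · have e : (B.pt s u).1 = (1 - Real.exp (-s)) • B.x + Real.exp (-s) • u := rfl
    rw [e]
    refine (norm_add_le _ _).trans ?_
    rw [norm_smul, norm_smul, B.x_norm, Real.norm_eq_abs, Real.norm_eq_abs, abs_of_pos h2,
      abs_of_nonneg (by linarith)]
    have : Real.exp (-s) * ‖u‖ ≤ 1 * 248 := by gcongr
    linarith
  · have e : (B.pt s u).2 = 1 - Real.exp (-s) := rfl
    rw [e, Real.norm_eq_abs, abs_of_nonneg (by linarith)]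
    linarith

theorem norm_glued_le (hR : SphereRetr R C) (ha : 0 < a) (ha1 : a < 1)
    (hd : ∀ k l, k ≠ l → Disjoint (A k).reg (A l).reg) {ε : ℝ} (hε : |ε| = 1)
    (v : Y × ℝ) : ‖glued A a R ε v‖ ≤ 258 := by
  by_cases h : ∃ k, v.1 ∈ (A k).reg
  · obtain ⟨k, hk⟩ := h
    rw [glued_of_mem hd hk]
    unfold Arm.ret
    apply norm_pt_le ((A k).lev'_nonneg _ _)
    rw [norm_smul, Real.norm_eq_abs, hε, one_mul]
    exact (A k).norm_dir' hR ha ha1 ((A k).lev_nonneg v) ((A k).lev_le v) _ _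
  · push Not at h
    rw [glued_of_not h, Prod.norm_def]
    apply max_le
    · change ‖ε • R v.1‖ ≤ 258
      rw [norm_smul, Real.norm_eq_abs, hε, one_mul, hR.norm]; norm_num
    · simp

theorem glued_ne (hR : SphereRetr R C) (ha : 0 < a) (ha1 : a < 1)
    (hd : ∀ k l, k ≠ l → Disjoint (A k).reg (A l).reg) (v : Y × ℝ) :
    glued A a R (-1) v ≠ glued A a R 1 v := by
  by_cases h : ∃ k, v.1 ∈ (A k).reg
  · obtain ⟨k, hk⟩ := h
    rw [glued_of_mem hd hk, glued_of_mem hd hk]
    unfold Arm.ret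
    intro he
    have hν := (A k).ν_dir' hR ha ha1 ((A k).lev_nonneg v) ((A k).lev_le v) ((A k).dir v) v.1
    have hs' := (A k).lev'_nonneg (a := a) ((A k).lev v) ((A k).dir v)
    set u := (A k).dir' a R ((A k).lev v) ((A k).dir v) v.1
    set s' := (A k).lev' a ((A k).lev v) ((A k).dir v)
    have h1 := congrArg Prod.fst he
    unfold Arm.pt at h1
    simp only at h1
    have h2 := add_left_cancel h1
    have h3 : (2 * Real.exp (-s')) • u = 0 := by
      have e : (2 * Real.exp (-s')) • u = Real.exp (-s') • ((1:ℝ) • u) -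
          Real.exp (-s') • ((-1:ℝ) • u) := by module
      rw [e, h2, sub_self]
    rcases smul_eq_zero.1 h3 with h4 | h4
    · have := Real.exp_pos (-s')
      linarith
    · rw [h4, (A k).ν_zero' hs'] at hν
      norm_num at hν
  · push Not at h
    rw [glued_of_not h, glued_of_not h]
    intro he
    have h1 := congrArg Prod.fst he
    simp only at h1
    have h2 : (2:ℝ) • R v.1 = 0 := by
      have e : (2:ℝ) • R v.1 = (1:ℝ) • R v.1 - (-1:ℝ) • R v.1 := by module
      rw [e, h1, sub_self]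
    rcases smul_eq_zero.1 h2 with h3 | h3
    · norm_num at h3
    · have := hR.norm v.1
      rw [h3, norm_zero] at this
      norm_num at this

theorem glued_disp (hR : SphereRetr R C) (ha : 0 < a)
    (hd : ∀ k l, k ≠ l → Disjoint (A k).reg (A l).reg) (hn : ∀ k, k ≤ (A k).n) {η : ℝ}
    (hη : 0 < η) : ∃ v : Y × ℝ, ‖v‖ ≤ 258 ∧ ‖v - glued A a R (-1) v‖ < η := by
  obtain ⟨k, hk⟩ : ∃ k : ℕ, 8 * Real.exp (-(k:ℝ)) < η := by
    obtain ⟨k, hk⟩ := exists_nat_gt (8 / η)
    refine ⟨k, ?_⟩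
    have h1 := Real.add_one_le_exp (k:ℝ)
    have h2 : 0 < Real.exp (k:ℝ) := Real.exp_pos _
    rw [Real.exp_neg, ← div_eq_mul_inv, div_lt_iff₀ h2]
    rw [div_lt_iff₀ hη] at hk
    nlinarith
  set B := A k with hB
  have hn0 : (0:ℝ) ≤ B.n := Nat.cast_nonneg _
  have hνe : 1 / 3 ≤ B.ν B.n B.e := by
    have := B.comp B.n hn0 B.e
    rw [B.e_N, B.e_norm] at this
    linarith
  have hνe0 : 0 < B.ν B.n B.e := by linarith
  set u := (B.ν B.n B.e)⁻¹ • B.e with hu
  have hc : B.Core a B.n u := by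
    refine ⟨hn0, le_rfl, ?_, ?_⟩
    · rw [hu, B.ν_smul _ hn0, abs_of_pos (inv_pos.2 hνe0), inv_mul_cancel₀ hνe0.ne']
    · rw [hu, B.N_smul _ hn0, B.e_N, mul_zero]
      exact (wid_pos _ _).le
  have hu4 := B.norm_of_core ha hc
  refine ⟨B.pt B.n u, norm_pt_le hn0 (by linarith), ?_⟩
  rw [glued_of_mem hd (B.core_reg ha hc), B.ret_pt hR ha hc]
  have e : B.pt B.n u - B.pt B.n ((-1:ℝ) • u) = ((2 * Real.exp (-(B.n:ℝ))) • u, 0) := by
    unfold Arm.pt
    rw [Prod.mk_sub_mk, sub_self]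
    congr 1
    module
  rw [e, Prod.norm_def]
  have h1 : Real.exp (-(B.n:ℝ)) ≤ Real.exp (-(k:ℝ)) := by
    apply Real.exp_le_exp.2
    have : (k:ℝ) ≤ B.n := by exact_mod_cast hn k
    linarith
  have h2 := Real.exp_pos (-(B.n:ℝ))
  apply max_lt
  · change ‖(2 * Real.exp (-(B.n:ℝ))) • u‖ < η
    rw [norm_smul, Real.norm_eq_abs, abs_of_pos (by positivity)]
    refine lt_of_le_of_lt ?_ hk
    calc 2 * Real.exp (-(B.n:ℝ)) * ‖u‖ ≤ 2 * Real.exp (-(k:ℝ)) * 4 := by gcongr
      _ = 8 * Real.exp (-(k:ℝ)) := by ring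
  · simpa using hη

end

theorem hgadget_prod (hY : ¬ FiniteDimensional ℝ Y) {α : ℝ} (hα : 0 < α) (hα1 : α < 1) :
    HGadget (Y × ℝ) α := by
  obtain ⟨R, hR1, hR2, hR3⟩ := exists_retr' hY
  have hR : SphereRetr R (max 1 CR) := by
    refine ⟨le_max_left _ _, fun y y' => (hR1 y y').trans ?_, hR2, hR3⟩
    gcongr
    exact le_max_right _ _
  obtain ⟨z, hz⟩ := Pool.Agent.TH554.J1152.exists_mazur hY
  obtain ⟨A, hn, hopen, hd⟩ := Pool.Agent.TH571.J1154.exists_family hz
    (fun o n h => Pool.Agent.TH571.J1153.exists_arm hz o n h)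
  set a := 1 - α with ha_def
  have ha : 0 < a := by linarith
  have ha1 : a < 1 := by linarith
  have haα : 1 - a = α := by rw [ha_def]; ring
  have hK0 : 0 ≤ Arm.KH a (max 1 CR) := by
    unfold Arm.KH
    have := Arm.KB_pos ha
    positivity
  have hglue : ∀ ε : ℝ, |ε| = 1 → ∀ v v' : Y × ℝ,
      ‖glued A a R ε v - glued A a R ε v'‖ ≤ 2 * Arm.KH a (max 1 CR) * ‖v - v'‖ ^ α := by
    intro ε hε
    refine Pool.Agent.TH444.J1155.glue (fun k => Prod.fst ⁻¹' (A k).reg)
      (fun k => (hopen k).preimage continuous_fst)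
      (fun k l hkl => (hd k l hkl).preimage _) (fun k => (A k).ret a R ε)
      (fun v => (ε • R v.1, 0)) ?_ _ α hK0 hα ?_ _ ?_ ?_
    · intro k v hv
      exact (A k).ret_off hR ha ha1 hv ε
    · intro k v v'
      have := (A k).ret_holder hR ha ha1 hε.le v v'
      rwa [haα] at this
    · intro k v hv
      exact glued_of_mem hd hv ε
    · intro v hv
      exact glued_of_not hv ε
  have hneg : |(-1:ℝ)| = 1 := by norm_num
  have hone : |(1:ℝ)| = 1 := by norm_num
  have hiter : ∀ n : ℕ, 1 ≤ n → (∀ v, (glued A a R (-1))^[n] v = glued A a R (-1) v) ∨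
      (∀ v, (glued A a R (-1))^[n] v = glued A a R 1 v) := by
    intro n hn
    induction n with
    | zero => omega
    | succ n ih =>
      rcases Nat.eq_zero_or_pos n with h | h
      · subst h; left; intro v; rfl
      · rcases ih h with h1 | h1
        · right; intro v
          rw [Function.iterate_succ_apply', h1, glued_comp hR ha ha1 hd hneg]
          norm_num
        · left; intro v
          rw [Function.iterate_succ_apply', h1, glued_comp hR ha ha1 hd hone]
          norm_num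
  refine ⟨glued A a R (-1), max 1 (2 * Arm.KH a (max 1 CR)), 258, le_max_left _ _, by norm_num,
    ?_, fun v => norm_glued_le hR ha ha1 hd hneg v, ?_, fun η hη => glued_disp hR ha hd hn hη⟩
  · intro n hn v v'
    have hpow : 0 ≤ ‖v - v'‖ ^ α := Real.rpow_nonneg (norm_nonneg _) _
    rcases hiter n hn with h | h
    · rw [h, h]
      refine (hglue _ hneg v v').trans ?_
      gcongr
      exact le_max_right _ _
    · rw [h, h]
      refine (hglue _ hone v v').trans ?_
      gcongr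
      exact le_max_right _ _
  · intro v hv
    have h1 := glued_comp (ε' := -1) hR ha ha1 hd hneg v
    rw [hv, hv] at h1
    apply glued_ne hR ha ha1 hd v
    rw [hv]
    nth_rewrite 1 [h1]
    norm_num

/-- Property (H) holds for the unit ball of every infinite-dimensional real normed space. -/
theorem propertyH_of_infinite {X : Type*} [NormedAddCommGroup X] [NormedSpace ℝ X]
    (hX : ¬ FiniteDimensional ℝ X) : PropertyH X := by
  apply Pool.Agent.TH828.J1156.hgadget_propertyH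
  intro α hα hα1
  obtain ⟨Y, hY, ⟨e⟩⟩ := Pool.Agent.TH828.J1156.exists_hyperplane hX
  exact Pool.Agent.TH828.J1156.hgadget_transfer hα hα1 (hgadget_prod hY hα hα1) e

end Pool.Agent.TH281.HB
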