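import Pool.Agent.TH281.HB.Defs

namespace Pool.Agent.TH281.HB

theorem wid_le {a s : ℝ} (ha : 0 < a) (hs : 0 ≤ s) : wid a s ≤ 2 / 250 := by
  unfold wid
  have : Real.exp (-(a * s)) ≤ 1 := Real.exp_le_one_iff.2 (by nlinarith)
  linarith

theorem wid_pos (a s : ℝ) : 0 < wid a s := by
  unfold wid
  have := Real.exp_pos (-(a * s))
  positivity

theorem wid_gap {a s b : ℝ} :
    1 / 250 * Real.exp (-(a * s)) * (a * b) ≤ wid a (s - b) - wid a s := by
  unfold wid
  have h1 : Real.exp (-(a * (s - b))) = Real.exp (-(a * s)) * Real.exp (a * b) := by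
    rw [← Real.exp_add]; ring_nf
  rw [h1]
  have h2 := Real.add_one_le_exp (a * b)
  have h3 := Real.exp_pos (-(a * s))
  nlinarith

theorem wid_lip {a s s' : ℝ} (ha : 0 < a) (ha1 : a ≤ 1) (hs : 0 ≤ s) (hs' : 0 ≤ s') :
    |wid a s - wid a s'| ≤ |s - s'| := by
  have key : ∀ s s' : ℝ, 0 ≤ s → s ≤ s' → |wid a s - wid a s'| ≤ |s - s'| := by
    intro s s' hs hss
    have h1 : Real.exp (-(a * s')) ≤ Real.exp (-(a * s)) := Real.exp_le_exp.2 (by nlinarith)
    have h2 : Real.exp (-(a * s)) ≤ 1 := Real.exp_le_one_iff.2 (by nlinarith)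
    have h3 : Real.exp (-(a * s')) = Real.exp (-(a * s)) * Real.exp (-(a * (s' - s))) := by
      rw [← Real.exp_add]; ring_nf
    have h4 := Real.add_one_le_exp (-(a * (s' - s)))
    have h5 := Real.exp_pos (-(a * s))
    have h6 : 1 - Real.exp (-(a * (s' - s))) ≤ s' - s := by nlinarith
    have h7 : Real.exp (-(a * (s' - s))) ≤ 1 := Real.exp_le_one_iff.2 (by nlinarith)
    rw [abs_of_nonneg (by unfold wid; linarith), abs_of_nonpos (by linarith)]
    unfold wid
    rw [h3]
    nlinarith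
  rcases le_total s s' with h | h
  · exact key s s' hs h
  · rw [abs_sub_comm, abs_sub_comm s s']
    exact key s' s hs' h

namespace Arm

variable {Y : Type*} [NormedAddCommGroup Y] [NormedSpace ℝ Y] (A : Arm Y)

theorem N_zero {s : ℝ} (hs : 0 ≤ s) : A.N s 0 = 0 := by
  have := A.N_smul s hs 0 0
  simpa using this

theorem N_neg {s : ℝ} (hs : 0 ≤ s) (w : Y) : A.N s (-w) = A.N s w := by
  have := A.N_smul s hs (-1) w
  simpa using this

theorem N_nonneg {s : ℝ} (hs : 0 ≤ s) (w : Y) : 0 ≤ A.N s w := by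
  have h1 := A.N_add s hs w (-w)
  rw [add_neg_cancel, A.N_zero hs, A.N_neg hs] at h1
  linarith

theorem ν_zero' {s : ℝ} (hs : 0 ≤ s) : A.ν s 0 = 0 := by
  have := A.ν_smul s hs 0 0
  simpa using this

theorem ν_neg {s : ℝ} (hs : 0 ≤ s) (w : Y) : A.ν s (-w) = A.ν s w := by
  have := A.ν_smul s hs (-1) w
  simpa using this

theorem ν_nonneg {s : ℝ} (hs : 0 ≤ s) (w : Y) : 0 ≤ A.ν s w := by
  have h1 := A.ν_add s hs w (-w)
  rw [add_neg_cancel, A.ν_zero' hs, A.ν_neg hs] at h1
  linarith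

theorem N_sub {s : ℝ} (hs : 0 ≤ s) (w w' : Y) : |A.N s w - A.N s w'| ≤ ‖w - w'‖ := by
  rw [abs_le]
  have h1 := A.N_add s hs (w - w') w'
  have h2 := A.N_add s hs (w' - w) w
  have h3 := A.N_le s hs (w - w')
  have h4 := A.N_le s hs (w' - w)
  rw [sub_add_cancel] at h1 h2
  rw [norm_sub_rev] at h4
  constructor <;> linarith

theorem ν_sub {s : ℝ} (hs : 0 ≤ s) (w w' : Y) : |A.ν s w - A.ν s w'| ≤ ‖w - w'‖ := by
  rw [abs_le]
  have h1 := A.ν_add s hs (w - w') w'
  have h2 := A.ν_add s hs (w' - w) w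
  have h3 := A.ν_le s hs (w - w')
  have h4 := A.ν_le s hs (w' - w)
  rw [sub_add_cancel] at h1 h2
  rw [norm_sub_rev] at h4
  constructor <;> linarith

/-! ### The clamped height, the level, the direction -/

theorem tc_nonneg (v : Y × ℝ) : 0 ≤ A.tc v := le_max_left _ _

theorem tc_le (v : Y × ℝ) : A.tc v ≤ 1 - Real.exp (-(A.n : ℝ)) := by
  unfold tc
  apply max_le
  · have : Real.exp (-(A.n : ℝ)) ≤ 1 := Real.exp_le_one_iff.2 (by simp)
    linarith
  · exact (min_le_right _ _).trans (min_le_left _ _)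

theorem tc_lt (v : Y × ℝ) : A.tc v < 1 := by
  have := A.tc_le v
  have := Real.exp_pos (-(A.n : ℝ))
  linarith

theorem tc_ball {v : Y × ℝ} (h : 0 < A.tc v) : ‖v.1 - A.x‖ ≤ 14 * (1 - A.tc v) := by
  have h1 : A.tc v = min v.2 (min (1 - Real.exp (-(A.n : ℝ))) (1 - ‖v.1 - A.x‖ / 14)) := by
    unfold tc at h ⊢
    rcases lt_max_iff.1 h with h | h
    · exact absurd h (lt_irrefl _)
    · exact max_eq_right h.le
  have h2 : A.tc v ≤ 1 - ‖v.1 - A.x‖ / 14 := by
    rw [h1]; exact (min_le_right _ _).trans (min_le_right _ _)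
  linarith

theorem exp_neg_lev (v : Y × ℝ) : Real.exp (-(A.lev v)) = 1 - A.tc v := by
  unfold lev
  rw [neg_neg, Real.exp_log]
  have := A.tc_lt v
  linarith

theorem lev_nonneg (v : Y × ℝ) : 0 ≤ A.lev v := by
  have h1 := A.exp_neg_lev v
  have h2 := A.tc_nonneg v
  have h3 : Real.exp (-(A.lev v)) ≤ 1 := by linarith
  have := Real.exp_le_one_iff.1 h3
  linarith

theorem lev_le (v : Y × ℝ) : A.lev v ≤ A.n := by
  have h1 := A.exp_neg_lev v
  have h2 := A.tc_le v
  have h3 : Real.exp (-(A.n : ℝ)) ≤ Real.exp (-(A.lev v)) := by linarith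
  have := Real.exp_le_exp.1 h3
  linarith

theorem lev_eq_zero {v : Y × ℝ} (h : A.tc v = 0) : A.lev v = 0 := by
  unfold lev; rw [h]; simp

theorem dir_eq {v : Y × ℝ} (h : A.tc v = 0) : A.dir v = v.1 := by
  unfold dir; rw [h]; simp

theorem tc_pos_of_lev_pos {v : Y × ℝ} (h : 0 < A.lev v) : 0 < A.tc v := by
  rcases (A.tc_nonneg v).eq_or_lt with h1 | h1
  · rw [A.lev_eq_zero h1.symm] at h
    exact absurd h (lt_irrefl _)
  · exact h1

theorem decomp (v : Y × ℝ) : v.1 = A.tc v • A.x + (1 - A.tc v) • A.dir v := by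
  unfold dir
  have := A.tc_lt v
  rw [smul_smul, mul_inv_cancel₀ (by linarith), one_smul]
  abel

theorem dir_sub_x {v : Y × ℝ} (h : 0 < A.tc v) : ‖A.dir v - A.x‖ ≤ 14 := by
  have h0 := A.tc_lt v
  have h1 : v.1 - A.x = (1 - A.tc v) • (A.dir v - A.x) := by
    rw [A.decomp v]
    module
  have h2 := A.tc_ball h
  rw [h1, norm_smul, Real.norm_eq_abs, abs_of_pos (by linarith)] at h2
  have h3 : (1 - A.tc v) * ‖A.dir v - A.x‖ ≤ (1 - A.tc v) * 14 := by linarith
  exact le_of_mul_le_mul_left h3 (by linarith)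

theorem dir_norm {v : Y × ℝ} (h : 0 < A.tc v) : ‖A.dir v‖ ≤ 24 := by
  have h1 := A.dir_sub_x h
  have h2 : ‖A.dir v‖ ≤ ‖A.dir v - A.x‖ + ‖A.x‖ := by
    have := norm_add_le (A.dir v - A.x) A.x
    rwa [sub_add_cancel] at this
  rw [A.x_norm] at h2
  linarith

/-! ### The defect -/

variable {a : ℝ}

theorem defect_nonneg (s : ℝ) (w : Y) : 0 ≤ A.defect a s w := by
  unfold defect
  have h1 := abs_nonneg (A.ν s w - 1)
  have h2 := le_max_left 0 (A.N s w - wid a s)
  linarith

theorem bet_nonneg (ha : 0 < a) (s : ℝ) (w : Y) : 0 ≤ A.bet a s w := by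
  unfold bet
  apply le_min (by norm_num)
  have := A.defect_nonneg (a := a) s w
  positivity

theorem bet_le (s : ℝ) (w : Y) : A.bet a s w ≤ 5 := min_le_left _ _

theorem lam_nonneg (s : ℝ) (w : Y) : 0 ≤ A.lam a s w := le_max_left _ _

theorem lam_le (s : ℝ) (w : Y) : A.lam a s w ≤ 1 := by
  unfold lam
  apply max_le (by norm_num)
  have := A.bet_le (a := a) s w
  linarith

theorem defect_eq (ha : 0 < a) {s : ℝ} {w : Y} (h : A.bet a s w < 5) :
    A.defect a s w = A.bet a s w * (a * Real.exp (-(a * s)) / 2000) := by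
  unfold bet at h ⊢
  have h1 : 2000 / a * Real.exp (a * s) * A.defect a s w < 5 := by
    rcases min_lt_iff.1 h with h | h
    · exact absurd h (lt_irrefl _)
    · exact h
  rw [min_eq_right h1.le]
  have h2 : Real.exp (a * s) * Real.exp (-(a * s)) = 1 := by
    rw [← Real.exp_add]; simp
  have h3 : 2000 / a * Real.exp (a * s) * A.defect a s w * (a * Real.exp (-(a * s)) / 2000) =
      (Real.exp (a * s) * Real.exp (-(a * s))) * A.defect a s w := by
    field_simp
  rw [h3, h2, one_mul]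

theorem small (ha : 0 < a) (ha1 : a < 1) {s : ℝ} (hs : 0 ≤ s) {w : Y} (h : A.bet a s w < 5) :
    399 / 400 ≤ A.ν s w ∧ A.ν s w ≤ 401 / 400 ∧ A.N s w ≤ 21 / 2000 ∧ ‖w‖ ≤ 31 / 10 := by
  have h1 := A.defect_eq ha h
  have h2 := A.bet_nonneg ha s w
  have h3 : Real.exp (-(a * s)) ≤ 1 := Real.exp_le_one_iff.2 (by nlinarith)
  have h4 := Real.exp_pos (-(a * s))
  have h5 : A.defect a s w ≤ 1 / 400 := by
    rw [h1]
    have : a * Real.exp (-(a * s)) / 2000 ≤ 1 / 2000 := by
      have : a * Real.exp (-(a * s)) ≤ 1 := by nlinarith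
      linarith
    have h6 : 0 ≤ a * Real.exp (-(a * s)) / 2000 := by positivity
    nlinarith
  unfold defect at h5
  have h6 := abs_nonneg (A.ν s w - 1)
  have h7 := le_max_left 0 (A.N s w - wid a s)
  have h8 := le_max_right 0 (A.N s w - wid a s)
  have h9 := neg_abs_le (A.ν s w - 1)
  have h10 := le_abs_self (A.ν s w - 1)
  have h11 := wid_le ha hs
  have h12 := A.comp s hs w
  refine ⟨by linarith, by linarith, by linarith, by linarith⟩

theorem lev'_nonneg (s : ℝ) (w : Y) : 0 ≤ A.lev' a s w := le_max_left _ _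

theorem lev'_le (ha : 0 < a) {s : ℝ} (hs : 0 ≤ s) (w : Y) : A.lev' a s w ≤ s := by
  unfold lev'
  apply max_le hs
  have : 0 ≤ min (A.bet a s w) 4 := le_min (A.bet_nonneg ha s w) (by norm_num)
  linarith

theorem le_lev' (s : ℝ) (w : Y) : s - 4 ≤ A.lev' a s w := by
  unfold lev'
  have : min (A.bet a s w) 4 ≤ 4 := min_le_right _ _
  exact le_trans (by linarith) (le_max_right _ _)

theorem ratio (ha : 0 < a) (ha1 : a < 1) {s : ℝ} (hs : 0 ≤ s) {w : Y} (h : A.bet a s w < 5)
    {c : ℝ} (hc : c = min (A.bet a s w) 4) (hcs : c ≤ s) :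
    A.N s w ≤ wid a (s - c) * A.ν s w := by
  have h1 := A.defect_eq ha h
  have h2 := A.bet_nonneg ha s w
  have h4 := Real.exp_pos (-(a * s))
  obtain ⟨b1, b2, b3, b4⟩ := A.small ha ha1 hs h
  have hc8 : A.bet a s w ≤ 8 * c := by
    rw [hc]
    rcases le_total (A.bet a s w) 4 with h | h'
    · rw [min_eq_left h]; linarith
    · rw [min_eq_right h']; linarith
  have h5 := wid_gap (a := a) (s := s) (b := c)
  have h6 := wid_le ha (show 0 ≤ s - c by linarith)
  have h7 := wid_pos a (s - c)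
  have h8 : A.defect a s w ≤ wid a (s - c) - wid a s := by
    rw [h1]
    refine le_trans ?_ h5
    have h9 : 0 < Real.exp (-(a * s)) * a := by positivity
    nlinarith
  unfold defect at h8
  have h9 := le_max_right 0 (A.N s w - wid a s)
  have h10 := neg_abs_le (A.ν s w - 1)
  have h11 := abs_nonneg (A.ν s w - 1)
  nlinarith

theorem mix_of_le {s : ℝ} {w y : Y} (h : A.bet a s w ≤ 4) : A.mix a s w y = (80 : ℝ) • w := by
  have h1 : A.lam a s w = 0 := by
    unfold lam; exact max_eq_left (by linarith)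
  unfold mix
  rw [h1]; simp

theorem tgt_of_ge {s : ℝ} {y : Y} (h : 4 ≤ s) : A.tgt s y = (80 : ℝ) • A.P s := by
  unfold tgt
  rw [max_eq_left h, max_eq_right (by linarith), min_eq_left (by linarith)]
  simp

theorem tgt_of_le {s : ℝ} {y : Y} (h : s ≤ 3) : A.tgt s y = y := by
  unfold tgt
  rw [max_eq_left (by linarith : s - 3 ≤ 0), min_eq_right (by norm_num)]
  simp

theorem key (ha : 0 < a) (ha1 : a < 1) {s : ℝ} (hs : 0 ≤ s) (hn : s ≤ A.n) {w y : Y}
    (h : 0 < A.lev' a s w) :
    1 ≤ A.ν (A.lev' a s w) (A.mix a s w y) ∧ ‖A.mix a s w y‖ ≤ 248 ∧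
    A.N (A.lev' a s w) (A.mix a s w y) ≤
      wid a (A.lev' a s w) * A.ν (A.lev' a s w) (A.mix a s w y) := by
  have hs' : A.lev' a s w = s - min (A.bet a s w) 4 := by
    unfold lev' at h ⊢
    rcases lt_max_iff.1 h with h | h
    · exact absurd h (lt_irrefl _)
    · exact max_eq_right h.le
  have hle := A.lev'_le ha hs w
  have hge : s - 4 ≤ A.lev' a s w := A.le_lev' s w
  rcases le_or_gt (A.bet a s w) 4 with hb | hb
  · -- no mixing
    have hb5 : A.bet a s w < 5 := by linarith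
    obtain ⟨b1, b2, b3, b4⟩ := A.small ha ha1 hs hb5
    have hr := A.ratio ha ha1 hs hb5 rfl (by linarith)
    rw [← hs'] at hr
    rw [A.mix_of_le hb, A.ν_smul _ h.le, A.N_smul _ h.le, norm_smul]
    have h1 := A.ν_anti _ _ h.le hle w
    have h2 := A.N_mono _ _ h.le hle w
    have h3 := wid_pos a (A.lev' a s w)
    have e80 : |(80:ℝ)| = 80 := abs_of_pos (by norm_num)
    rw [Real.norm_eq_abs, e80]
    refine ⟨by linarith, by linarith, ?_⟩
    have h4 : A.N (A.lev' a s w) w ≤ wid a (A.lev' a s w) * A.ν (A.lev' a s w) w := by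
      refine h2.trans (hr.trans ?_)
      gcongr
    nlinarith
  · have hs4 : A.lev' a s w = s - 4 := by rw [hs', min_eq_right hb.le]
    have h4s : 4 ≤ s := by rw [hs4] at h; linarith
    have hlam : A.lam a s w = A.bet a s w - 4 := by
      unfold lam; exact max_eq_right (by linarith)
    have hl0 := A.lam_nonneg (a := a) s w
    have hl1 := A.lam_le (a := a) s w
    have p1 := A.P_ν s h4s hn
    have p2 := A.P_N s h4s hn
    have p3 := A.P_far s h4s hn
    have p4 := A.P_norm s hs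
    have h0 : 0 ≤ s - 4 := by linarith
    have hmix : A.mix a s w y = (80 * (1 - A.lam a s w)) • w + (80 * A.lam a s w) • A.P s := by
      unfold mix
      rw [A.tgt_of_ge h4s, smul_smul, mul_comm (A.lam a s w) 80]
    rw [hs4]
    set l := A.lam a s w with hl
    have wp := wid_pos a (s - 4)
    -- the `P` part
    have q1 : A.ν s ((80 * l) • A.P s) = 0 := by rw [A.ν_smul s hs, p1, mul_zero]
    have q2 : A.N (s - 4) ((80 * l) • A.P s) = 0 := by rw [A.N_smul _ h0, p2, mul_zero]
    have q3 : 8 * l ≤ A.ν (s - 4) ((80 * l) • A.P s) := by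
      rw [A.ν_smul _ h0, abs_of_nonneg (by positivity)]
      nlinarith
    have q4 : ‖(80 * l) • A.P s‖ ≤ 80 * l := by
      rw [norm_smul, Real.norm_eq_abs, abs_of_nonneg (by positivity)]
      have := norm_nonneg (A.P s)
      nlinarith
    rcases (A.bet_le (a := a) s w).lt_or_eq with hb5 | hb5
    · obtain ⟨b1, b2, b3, b4⟩ := A.small ha ha1 hs hb5
      have hr := A.ratio ha ha1 hs hb5 rfl (by rw [min_eq_right hb.le]; exact h4s)
      rw [min_eq_right hb.le] at hr
      have hm0 : 0 ≤ 80 * (1 - l) := by linarith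
      have r1 : A.ν s ((80 * (1 - l)) • w) = 80 * (1 - l) * A.ν s w := by
        rw [A.ν_smul s hs, abs_of_nonneg hm0]
      have r2 : A.N (s - 4) ((80 * (1 - l)) • w) = 80 * (1 - l) * A.N (s - 4) w := by
        rw [A.N_smul _ h0, abs_of_nonneg hm0]
      have r3 : A.ν (s - 4) ((80 * (1 - l)) • w) ≤ 80 * (1 - l) * (31 / 10) := by
        rw [A.ν_smul _ h0, abs_of_nonneg hm0]
        have := A.ν_le (s - 4) h0 w
        gcongr
        linarith
      have r4 : ‖(80 * (1 - l)) • w‖ ≤ 80 * (1 - l) * (31 / 10) := by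
        rw [norm_smul, Real.norm_eq_abs, abs_of_nonneg hm0]
        gcongr
      have s1 : 80 * (1 - l) * A.ν s w ≤ A.ν (s - 4) (A.mix a s w y) := by
        refine le_trans ?_ (A.ν_anti (s - 4) s h0 (by linarith) _)
        have t := A.ν_add s hs (A.mix a s w y) (-((80 * l) • A.P s))
        rw [A.ν_neg hs, q1, add_zero] at t
        have t2 : A.mix a s w y + -((80 * l) • A.P s) = (80 * (1 - l)) • w := by
          rw [hmix]; abel
        rw [t2, r1] at t
        exact t
      have s2 : 8 * l - 80 * (1 - l) * (31 / 10) ≤ A.ν (s - 4) (A.mix a s w y) := by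
        have t := A.ν_add (s - 4) h0 (A.mix a s w y) (-((80 * (1 - l)) • w))
        rw [A.ν_neg h0] at t
        have t2 : A.mix a s w y + -((80 * (1 - l)) • w) = (80 * l) • A.P s := by
          rw [hmix]; abel
        rw [t2] at t
        linarith
      refine ⟨?_, ?_, ?_⟩
      · by_cases hx : 1 ≤ 80 * (1 - l) * A.ν s w
        · linarith
        · push Not at hx
          have : 80 * (1 - l) * (399 / 400) < 1 := by
            refine lt_of_le_of_lt ?_ hx
            gcongr
          linarith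
      · rw [hmix]
        refine (norm_add_le _ _).trans ?_
        linarith
      · have t := A.N_add (s - 4) h0 ((80 * (1 - l)) • w) ((80 * l) • A.P s)
        rw [← hmix, q2, add_zero, r2] at t
        have t3 := A.N_mono _ _ h0 (by linarith : s - 4 ≤ s) w
        calc A.N (s - 4) (A.mix a s w y) ≤ 80 * (1 - l) * A.N (s - 4) w := t
          _ ≤ 80 * (1 - l) * (wid a (s - 4) * A.ν s w) := by
              gcongr
              exact t3.trans hr
          _ = wid a (s - 4) * (80 * (1 - l) * A.ν s w) := by ring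
          _ ≤ _ := by gcongr
    · have hl1' : l = 1 := by rw [hlam, hb5]; norm_num
      rw [hl1'] at hmix q2 q3 q4
      have hmix' : A.mix a s w y = (80 * (1:ℝ)) • A.P s := by
        rw [hmix]; simp
      rw [hmix', q2]
      refine ⟨by linarith, by linarith, ?_⟩
      have := A.ν_nonneg h0 ((80 * (1:ℝ)) • A.P s)
      positivity

end Arm

end Pool.Agent.TH281.HB
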