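import Pool.Agent.TH281.HB.Single

namespace Pool.Agent.TH281.HB

namespace Arm

variable {Y : Type*} [NormedAddCommGroup Y] [NormedSpace ℝ Y] (A : Arm Y) {a : ℝ}
  {R : Y → Y} {C : ℝ}

theorem ν_R (hR : SphereRetr R C) (ha : 0 < a) (ha1 : a < 1) {s : ℝ} (hs : 0 ≤ s)
    (hn : s ≤ A.n) (w y : Y) :
    1 / 248 ≤ A.ν (A.lev' a s w) (R (A.mix a s w y)) := by
  rcases (A.lev'_nonneg (a := a) s w).eq_or_lt with h | h
  · rw [← h, A.ν_zero, hR.norm]; norm_num
  · obtain ⟨h1, h2, -⟩ := A.key ha ha1 hs hn (y := y) h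
    have h3 : 1 ≤ ‖A.mix a s w y‖ := h1.trans (A.ν_le _ h.le _)
    have h4 : 0 < ‖A.mix a s w y‖ := by linarith
    rw [hR.eq _ h3, A.ν_smul _ h.le, abs_of_pos (inv_pos.2 h4), inv_mul_eq_div,
      div_le_div_iff₀ (by norm_num) h4]
    linarith

theorem ν_dir' (hR : SphereRetr R C) (ha : 0 < a) (ha1 : a < 1) {s : ℝ} (hs : 0 ≤ s)
    (hn : s ≤ A.n) (w y : Y) : A.ν (A.lev' a s w) (A.dir' a R s w y) = 1 := by
  have h := A.ν_R hR ha ha1 hs hn w y
  have h0 : 0 < A.ν (A.lev' a s w) (R (A.mix a s w y)) := by linarith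
  unfold dir'
  rw [A.ν_smul _ (A.lev'_nonneg s w), abs_of_pos (inv_pos.2 h0), inv_mul_cancel₀ h0.ne']

theorem norm_dir' (hR : SphereRetr R C) (ha : 0 < a) (ha1 : a < 1) {s : ℝ} (hs : 0 ≤ s)
    (hn : s ≤ A.n) (w y : Y) : ‖A.dir' a R s w y‖ ≤ 248 := by
  have h := A.ν_R hR ha ha1 hs hn w y
  have h0 : 0 < A.ν (A.lev' a s w) (R (A.mix a s w y)) := by linarith
  unfold dir'
  rw [norm_smul, hR.norm, Real.norm_eq_abs, abs_of_pos (inv_pos.2 h0), mul_one,
    inv_le_comm₀ h0 (by norm_num)]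
  linarith

theorem dir'_core (hR : SphereRetr R C) (ha : 0 < a) (ha1 : a < 1) {s : ℝ} (hs : 0 ≤ s)
    (hn : s ≤ A.n) (w y : Y) (h : 0 < A.lev' a s w) :
    A.Core a (A.lev' a s w) (A.dir' a R s w y) := by
  refine ⟨h.le, (A.lev'_le ha hs w).trans hn, A.ν_dir' hR ha ha1 hs hn w y, ?_⟩
  obtain ⟨h1, h2, h3⟩ := A.key ha ha1 hs hn (y := y) h
  have h4 : 1 ≤ ‖A.mix a s w y‖ := h1.trans (A.ν_le _ h.le _)
  have h5 : 0 < ‖A.mix a s w y‖ := by linarith
  have h6 : 0 < A.ν (A.lev' a s w) (A.mix a s w y) := by linarith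
  unfold dir'
  rw [hR.eq _ h4, A.ν_smul _ h.le, abs_of_pos (inv_pos.2 h5), A.N_smul _ h.le, A.N_smul _ h.le,
    abs_of_pos (inv_pos.2 h5), abs_of_pos (by positivity)]
  have h7 : (‖A.mix a s w y‖⁻¹ * A.ν (A.lev' a s w) (A.mix a s w y))⁻¹ *
      (‖A.mix a s w y‖⁻¹ * A.N (A.lev' a s w) (A.mix a s w y)) =
      A.N (A.lev' a s w) (A.mix a s w y) / A.ν (A.lev' a s w) (A.mix a s w y) := by
    field_simp
  rw [h7, div_le_iff₀ h6]
  exact h3

theorem dir'_zero (hR : SphereRetr R C) {s : ℝ} {w y : Y} (h : A.lev' a s w = 0) :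
    A.dir' a R s w y = R (A.mix a s w y) := by
  unfold dir'
  rw [h, A.ν_zero, hR.norm]; simp

theorem norm_of_core (ha : 0 < a) {s : ℝ} {u : Y} (h : A.Core a s u) : ‖u‖ ≤ 4 := by
  obtain ⟨h0, -, h1, h2⟩ := h
  have h3 := A.comp s h0 u
  have h4 := wid_le ha h0
  linarith

theorem tc_pt {s : ℝ} (hs : 0 ≤ s) (hn : s ≤ A.n) {u : Y} (hu : ‖u‖ ≤ 4) :
    A.tc (A.pt s u) = 1 - Real.exp (-s) := by
  have h1 : (A.pt s u).1 - A.x = Real.exp (-s) • (u - A.x) := by
    unfold pt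
    module
  have h2 : ‖u - A.x‖ ≤ 14 := by
    refine (norm_sub_le _ _).trans ?_
    rw [A.x_norm]; linarith
  have h3 := Real.exp_pos (-s)
  have h4 : ‖(A.pt s u).1 - A.x‖ / 14 ≤ Real.exp (-s) := by
    rw [h1, norm_smul, Real.norm_eq_abs, abs_of_pos h3]
    have : Real.exp (-s) * ‖u - A.x‖ ≤ Real.exp (-s) * 14 := by gcongr
    linarith
  have h5 : Real.exp (-(A.n : ℝ)) ≤ Real.exp (-s) := Real.exp_le_exp.2 (by linarith)
  have h6 : Real.exp (-s) ≤ 1 := Real.exp_le_one_iff.2 (by linarith)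
  unfold tc
  have h7 : (A.pt s u).2 = 1 - Real.exp (-s) := rfl
  rw [h7, min_eq_left, max_eq_right (by linarith)]
  exact le_min (by linarith) (by linarith)

theorem lev_pt {s : ℝ} (hs : 0 ≤ s) (hn : s ≤ A.n) {u : Y} (hu : ‖u‖ ≤ 4) :
    A.lev (A.pt s u) = s := by
  unfold lev
  rw [A.tc_pt hs hn hu]
  simp

theorem dir_pt {s : ℝ} (hs : 0 ≤ s) (hn : s ≤ A.n) {u : Y} (hu : ‖u‖ ≤ 4) :
    A.dir (A.pt s u) = u := by
  unfold dir
  rw [A.tc_pt hs hn hu]
  have h3 := Real.exp_pos (-s)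
  have h4 : (A.pt s u).1 - (1 - Real.exp (-s)) • A.x = Real.exp (-s) • u := by
    unfold pt; module
  rw [h4, smul_smul]
  have h5 : (1 - (1 - Real.exp (-s)))⁻¹ * Real.exp (-s) = 1 := by
    rw [sub_sub_cancel, inv_mul_cancel₀ h3.ne']
  rw [h5, one_smul]

theorem ret_pt (hR : SphereRetr R C) (ha : 0 < a) {s : ℝ} {u : Y} (h : A.Core a s u) (ε : ℝ) :
    A.ret a R ε (A.pt s u) = A.pt s (ε • u) := by
  have hu := A.norm_of_core ha h
  obtain ⟨h0, hn, h1, h2⟩ := h
  unfold ret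
  rw [A.lev_pt h0 hn hu, A.dir_pt h0 hn hu]
  have hd : A.defect a s u = 0 := by
    unfold defect
    rw [h1, max_eq_left (by linarith)]; simp
  have hb : A.bet a s u = 0 := by
    unfold bet
    rw [hd, mul_zero]; norm_num
  have hl : A.lev' a s u = s := by
    unfold lev'
    rw [hb]
    have : min (0:ℝ) 4 = 0 := min_eq_left (by norm_num)
    rw [this, sub_zero, max_eq_right h0]
  have hu1 : 1 ≤ ‖u‖ := by
    rw [← h1]; exact A.ν_le s h0 u
  have hm : A.mix a s u (A.pt s u).1 = (80:ℝ) • u := A.mix_of_le (by rw [hb]; norm_num)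
  have hRm : R ((80:ℝ) • u) = ‖u‖⁻¹ • u := by
    rw [hR.eq _ (by rw [norm_smul]; norm_num; linarith), norm_smul, smul_smul]
    congr 1
    have : ‖(80:ℝ)‖ = 80 := by norm_num
    rw [this]
    field_simp
  have hdir : A.dir' a R s u (A.pt s u).1 = u := by
    unfold dir'
    rw [hl, hm, hRm, A.ν_smul s h0, h1, abs_of_pos (by positivity), mul_one, smul_smul, inv_inv,
      mul_inv_cancel₀ (by positivity), one_smul]
  rw [hl, hdir]

theorem pt_zero (u : Y) : A.pt 0 u = (u, 0) := by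
  unfold pt; simp

theorem lam_le_one (s : ℝ) (w : Y) : A.lam a s w ≤ 1 := A.lam_le s w

theorem ret_hub (hR : SphereRetr R C) (ha : 0 < a) {y : Y} (hy : ‖y‖ = 1) (ε : ℝ) :
    A.ret a R ε (y, 0) = (ε • y, 0) := by
  rw [← A.pt_zero y]
  unfold ret
  have hn : (0:ℝ) ≤ A.n := Nat.cast_nonneg _
  rw [A.lev_pt le_rfl hn (by rw [hy]; norm_num), A.dir_pt le_rfl hn (by rw [hy]; norm_num)]
  have hl : A.lev' a 0 y = 0 := le_antisymm (A.lev'_le ha le_rfl y) (A.lev'_nonneg 0 y)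
  have hp : (A.pt 0 y).1 = y := by rw [A.pt_zero]
  rw [hl, A.dir'_zero hR hl, hp, A.pt_zero]
  have h0 := A.lam_nonneg (a := a) 0 y
  have h1 := A.lam_le (a := a) 0 y
  have hm : A.mix a 0 y y = (80 - 79 * A.lam a 0 y) • y := by
    unfold mix
    rw [A.tgt_of_le (by norm_num)]
    module
  have hm1 : ‖A.mix a 0 y y‖ = 80 - 79 * A.lam a 0 y := by
    rw [hm, norm_smul, hy, mul_one, Real.norm_eq_abs, abs_of_nonneg (by linarith)]
  rw [hR.eq _ (by rw [hm1]; linarith), hm1, hm, smul_smul, smul_smul,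
    mul_assoc, inv_mul_cancel₀ (by linarith), mul_one]

theorem exp_neg_three : Real.exp (-3) < 1 / 14 := by
  rw [Real.exp_neg, inv_eq_one_div]
  apply one_div_lt_one_div_of_lt (by norm_num)
  have h1 : Real.exp 3 = Real.exp 1 ^ 3 := by
    rw [← Real.exp_nat_mul]; norm_num
  rw [h1]
  have h2 := Real.exp_one_gt_d9
  calc (14:ℝ) < 2.7 ^ 3 := by norm_num
    _ ≤ Real.exp 1 ^ 3 := by gcongr; linarith

theorem ret_off (hR : SphereRetr R C) (ha : 0 < a) (ha1 : a < 1) {v : Y × ℝ}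
    (h : v.1 ∉ A.reg) (ε : ℝ) : A.ret a R ε v = (ε • R v.1, 0) := by
  have h' : ¬ (‖v.1 - A.x‖ < 1 ∨ (A.δ v.1 < 4 / 250 ∧ 1 / 4 < ‖v.1‖)) := h
  push Not at h'
  obtain ⟨h1, h2⟩ := h'
  have ht0 := A.tc_nonneg v
  have ht1 := A.tc_lt v
  set t := A.tc v with ht
  set s := A.lev v with hs
  set w := A.dir v with hw
  have hs0 : 0 ≤ s := A.lev_nonneg v
  have hq : Real.exp (-s) = 1 - t := A.exp_neg_lev v
  have hdec : v.1 = t • A.x + (1 - t) • w := A.decomp v
  -- the level is at most `3`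
  have ht2 : t ≤ 13 / 14 := by
    rcases ht0.eq_or_lt with h0 | h0
    · rw [← h0]; norm_num
    · have := A.tc_ball (v := v) h0
      linarith
  have hs3 : s ≤ 3 := by
    by_contra hc
    push Not at hc
    have h3 : Real.exp (-s) < Real.exp (-3) := Real.exp_lt_exp.2 (by linarith)
    have h4 := exp_neg_three
    linarith
  -- the defect is large
  have hN0 := A.N_nonneg (s := 0) le_rfl w
  have hNs := A.N_mono 0 s le_rfl hs0 w
  have hwid := wid_le ha hs0
  have hdef : 2 / 250 ≤ A.defect a s w := by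
    unfold defect
    have e1 := le_max_right 0 (A.N s w - wid a s)
    have e2 := le_max_left 0 (A.N s w - wid a s)
    have e3 := abs_nonneg (A.ν s w - 1)
    have e4 := neg_abs_le (A.ν s w - 1)
    by_cases hδ : A.δ v.1 < 4 / 250
    · have h3 := h2 hδ
      have h4 := A.x_far t ((1 - t) • w)
      have h5 : (1 - t) • w + t • A.x = v.1 := by rw [hdec]; abel
      rw [h5, norm_smul, A.N_smul 0 le_rfl, Real.norm_eq_abs, abs_of_pos (by linarith)] at h4
      have h6 : 69 / 100 ≤ 1 - t := by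
        rcases ht0.eq_or_lt with h0 | h0
        · rw [← h0]; norm_num
        · have h7 := A.tc_ball (v := v) h0
          have h8 : ‖A.x‖ ≤ ‖v.1 - A.x‖ + ‖v.1‖ := by
            have := norm_sub_le v.1 (v.1 - A.x)
            rw [sub_sub_cancel] at this
            linarith
          rw [A.x_norm] at h8
          linarith
      have h9 : ‖w‖ ≤ 73 / 100 + 3 * A.N 0 w := by
        have h10 : (1 - t) * ‖w‖ ≤ (1 - t) * (73 / 100 + 3 * A.N 0 w) := by nlinarith
        exact le_of_mul_le_mul_left h10 (by linarith)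
      have h11 := A.ν_le s hs0 w
      by_cases h12 : A.N s w ≤ 2 / 100
      · linarith
      · push Not at h12
        linarith
    · push Not at hδ
      have h3 := A.δ_le (1 - t) t w
      rw [← hdec, abs_of_pos (by linarith)] at h3
      have h4 : (1 - t) * A.N 0 w ≤ A.N 0 w := by nlinarith
      linarith
  have hbet : A.bet a s w = 5 := by
    unfold bet
    apply min_eq_left
    have h3 : 1 ≤ Real.exp (a * s) := Real.one_le_exp (by positivity)
    have h4 : 2000 ≤ 2000 / a := by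
      rw [le_div_iff₀ ha]; linarith
    calc (5:ℝ) ≤ 2000 * 1 * (2 / 250) := by norm_num
      _ ≤ 2000 / a * Real.exp (a * s) * A.defect a s w := by gcongr
  have hlev : A.lev' a s w = 0 := by
    unfold lev'
    rw [hbet]
    apply max_eq_left
    have : min (5:ℝ) 4 = 4 := by norm_num
    rw [this]; linarith
  have hlam : A.lam a s w = 1 := by
    unfold lam
    rw [hbet]; norm_num
  have hmix : A.mix a s w v.1 = v.1 := by
    unfold mix
    rw [hlam, A.tgt_of_le hs3]; simp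
  unfold ret
  rw [← hs, ← hw, hlev, A.dir'_zero hR hlev, hmix, A.pt_zero]

theorem core_reg (ha : 0 < a) {s : ℝ} {u : Y} (h : A.Core a s u) :
    (A.pt s u).1 ∈ A.reg := by
  obtain ⟨h0, hn, h1, h2⟩ := h
  right
  have hw := wid_le ha h0
  have hq := Real.exp_pos (-s)
  have hq1 : Real.exp (-s) ≤ 1 := Real.exp_le_one_iff.2 (by linarith)
  set q := Real.exp (-s) with hqd
  have hN0 := A.N_nonneg (s := 0) le_rfl u
  have hNs := A.N_mono 0 s le_rfl h0 u
  have hp : (A.pt s u).1 = (1 - q) • A.x + q • u := rfl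
  constructor
  · rw [hp]
    have h3 := A.δ_le q (1 - q) u
    rw [abs_of_pos hq] at h3
    have : q * A.N 0 u ≤ A.N 0 u := by nlinarith
    linarith
  · have h3 := A.x_far (1 - q) (q • u)
    have h4 : q • u + (1 - q) • A.x = (A.pt s u).1 := by rw [hp]; abel
    rw [h4, norm_smul, A.N_smul 0 le_rfl, Real.norm_eq_abs, abs_of_pos hq] at h3
    have h5 := A.ν_le s h0 u
    have h6 : ‖u‖ ≤ 31 / 10 := by
      have := A.comp s h0 u
      linarith
    have h7 : 10 * (1 - q) - q * (31 / 10) ≤ ‖(A.pt s u).1‖ := by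
      have h8 : (1 - q) • A.x = (A.pt s u).1 - q • u := by rw [hp]; abel
      have h9 : ‖(1 - q) • A.x‖ ≤ ‖(A.pt s u).1‖ + ‖q • u‖ := by
        rw [h8]; exact norm_sub_le _ _
      rw [norm_smul, norm_smul, A.x_norm, Real.norm_eq_abs, Real.norm_eq_abs, abs_of_pos hq,
        abs_of_nonneg (by linarith)] at h9
      have : q * ‖u‖ ≤ q * (31 / 10) := by gcongr
      linarith
    have h10 : q * (244 / 250) ≤ 2 * ‖(A.pt s u).1‖ := by
      have : q * (1 - 3 * (2 / 250)) ≤ q * (‖u‖ - 3 * A.N 0 u) := by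
        gcongr <;> linarith
      linarith
    by_contra hc
    push Not at hc
    linarith

end Arm

end Pool.Agent.TH281.HB
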